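import Pool.Agent.Lib.MP_eff308_lc.T.Defs

open Cardinal Set Filter

universe u

namespace Pool.Agent.Lib.MP_eff308_lc.T

variable {κ : Cardinal.{u}}

theorem mkKK : #(KK κ) = κ := Cardinal.mk_ord_toType κ

theorem bdd (hreg : κ.IsRegular) {S : Set (KK κ)} (hS : #(↥S) < κ) : ∃ b, ∀ s ∈ S, s < b := by
  by_contra hcon
  push Not at hcon
  have hc : IsCofinal S := fun a => by
    obtain ⟨s, hs, h⟩ := hcon a
    exact ⟨s, hs, h⟩
  have h1 := Order.cof_le hc
  rw [Ordinal.cof_toType, hreg.cof_ord] at h1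
  exact absurd hS (not_lt.2 h1)

theorem bdd_range (hreg : κ.IsRegular) {I : Type u} (hI : #I < κ) (f : I → KK κ) :
    ∃ b, ∀ i, f i < b := by
  obtain ⟨b, hb⟩ := bdd hreg (S := Set.range f) (lt_of_le_of_lt mk_range_le hI)
  exact ⟨b, fun i => hb _ ⟨i, rfl⟩⟩

theorem small_of_bdd {S : Set (KK κ)} {b : KK κ} (h : ∀ s ∈ S, s < b) : #(↥S) < κ :=
  lt_of_le_of_lt (mk_le_mk_of_subset (show S ⊆ Set.Iio b from fun s hs => h s hs))
    (Cardinal.mk_Iio_toType_ord_lt b)

theorem noMax (hreg : κ.IsRegular) (b : KK κ) : ∃ x, b < x := by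
  obtain ⟨x, hx⟩ := bdd hreg (S := {b})
    (by rw [mk_singleton]; exact lt_of_lt_of_le Cardinal.one_lt_aleph0 hreg.aleph0_le)
  exact ⟨x, hx b rfl⟩

theorem neK (hreg : κ.IsRegular) : Nonempty (KK κ) := by
  rw [← Cardinal.mk_ne_zero_iff, mkKK]
  exact hreg.ne_zero

theorem atTop_neBot (hreg : κ.IsRegular) : (atTop : Filter (KK κ)).NeBot := by
  have := neK hreg
  infer_instance

theorem card_of_freq (hreg : κ.IsRegular) {X : Set (KK κ)} (h : ∃ᶠ x in atTop, x ∈ X) :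
    #(↥X) = κ := by
  have := neK hreg
  refine le_antisymm ((mk_set_le X).trans mkKK.le) (not_lt.1 fun hlt => ?_)
  obtain ⟨b, hb⟩ := bdd hreg hlt
  obtain ⟨x, hx, hxX⟩ := (h.and_eventually (eventually_ge_atTop b)).exists
  exact absurd (hb x hx) (not_lt.2 hxX)

theorem freq_of_card (hreg : κ.IsRegular) {X : Set (KK κ)} (h : #(↥X) = κ) :
    ∃ᶠ x in atTop, x ∈ X := by
  have := neK hreg
  rw [Filter.frequently_atTop]
  intro b
  by_contra hcon
  push Not at hcon
  have : #(↥X) < κ := small_of_bdd (b := b) fun s hs => by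
    by_contra hlt
    exact hcon s (not_lt.1 hlt) hs
  exact absurd h this.ne

theorem ev_of_small (hreg : κ.IsRegular) {X : Set (KK κ)} (h : #(↥X) < κ) :
    ∀ᶠ x in atTop, x ∉ X := by
  obtain ⟨b, hb⟩ := bdd hreg h
  filter_upwards [eventually_ge_atTop b] with x hx hxX
  exact absurd (hb x hxX) (not_lt.2 hx)

theorem small_of_ev (hreg : κ.IsRegular) {X : Set (KK κ)} (h : ∀ᶠ x in atTop, x ∉ X) :
    #(↥X) < κ := by
  have := neK hreg
  obtain ⟨b, hb⟩ := Filter.eventually_atTop.1 h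
  exact small_of_bdd (b := b) fun s hs => by
    by_contra hlt
    exact hb s (not_lt.1 hlt) hs

theorem ev_all (hreg : κ.IsRegular) {I : Type u} (hI : #I < κ) {p : I → KK κ → Prop}
    (h : ∀ i, ∀ᶠ x in atTop, p i x) : ∀ᶠ x in atTop, ∀ i, p i x := by
  have := neK hreg
  have h' : ∀ i, ∃ a, ∀ x, a ≤ x → p i x := fun i => Filter.eventually_atTop.1 (h i)
  choose f hf using h'
  obtain ⟨b, hb⟩ := bdd_range hreg hI f
  filter_upwards [eventually_ge_atTop b] with x hx i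
  exact hf i x ((hb i).le.trans hx)

theorem ev_all_mem (hreg : κ.IsRegular) {I : Type u} {Γ : Set I} (hI : #(↥Γ) < κ)
    {p : I → KK κ → Prop} (h : ∀ i ∈ Γ, ∀ᶠ x in atTop, p i x) :
    ∀ᶠ x in atTop, ∀ i ∈ Γ, p i x := by
  have := ev_all hreg hI (p := fun (i : Γ) x => p i.1 x) fun i => h i.1 i.2
  filter_upwards [this] with x hx i hi
  exact hx ⟨i, hi⟩

/-- closure points of a function above a given point -/
theorem exists_closed (hreg : κ.IsRegular) (h0 : ℵ₀ < κ) (ψ : KK κ → KK κ) (b : KK κ) :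
    ∃ x, b < x ∧ ∀ z, z < x → ψ z < x := by
  classical
  have hstep : ∀ a : KK κ, ∃ c, a < c ∧ ∀ z, z ≤ a → ψ z < c := by
    intro a
    have hs : #(↥(Set.Iic a)) < κ := by
      obtain ⟨a', ha'⟩ := noMax hreg a
      exact small_of_bdd (b := a') fun s hs => lt_of_le_of_lt hs ha'
    obtain ⟨c, hc⟩ := bdd_range hreg hs (fun z : Set.Iic a => ψ z.1)
    obtain ⟨c', hc'⟩ := noMax hreg (max a c)
    exact ⟨c', lt_of_le_of_lt (le_max_left _ _) hc', fun z hz =>
      lt_of_lt_of_le (hc ⟨z, hz⟩) ((le_max_right _ _).trans hc'.le)⟩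
  choose nx hnx1 hnx2 using hstep
  let s : ℕ → KK κ := fun n => nx^[n] b
  have hs : ∀ n, s (n + 1) = nx (s n) := fun n => Function.iterate_succ_apply' nx n b
  have hbd : ∃ c, ∀ n, s n < c := by
    have : #(↥(Set.range s)) < κ := lt_of_le_of_lt (mk_le_aleph0_iff.2 (Set.countable_range s).to_subtype) h0
    obtain ⟨c, hc⟩ := bdd hreg this
    exact ⟨c, fun n => hc _ ⟨n, rfl⟩⟩
  let U : Set (KK κ) := {c | ∀ n, s n < c}
  have hU : U.Nonempty := hbd
  let x := wellFounded_lt.min U hU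
  have hx : x ∈ U := wellFounded_lt.min_mem U hU
  refine ⟨x, hx 0, fun z hz => ?_⟩
  have hzU : z ∉ U := fun h => (wellFounded_lt.not_lt_min U h) hz
  have : ∃ n, z ≤ s n := by
    by_contra hcon
    push Not at hcon
    exact hzU hcon
  obtain ⟨n, hn⟩ := this
  calc ψ z < nx (s n) := hnx2 _ z hn
    _ = s (n + 1) := (hs n).symm
    _ < x := hx _

end Pool.Agent.Lib.MP_eff308_lc.T
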