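import Pool.Agent.Lib.MP_eff308_lc.T.Use

open Cardinal Set Filter

universe u v

namespace Pool.Agent.Lib.MP_eff308_lc.T

variable {κ : Cardinal.{u}}

/-- recursion along `μ.ord` below a family of `μ` elements -/
theorem exists_chain {α : Type u} (R : α → α → Prop) (μ : Cardinal.{u})
    (hinf : ℵ₀ ≤ μ)
    (H : ∀ S : Set α, #(↥S) < μ → ∃ a, ∀ b ∈ S, R a b) (c : μ.ord.ToType → α) :
    ∃ s : μ.ord.ToType → α, (∀ i j, i < j → R (s j) (s i)) ∧ ∀ i, R (s i) (c i) := by
  classical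
  obtain ⟨a0, -⟩ := H ∅ (by simpa using lt_of_lt_of_le Cardinal.aleph0_pos hinf)
  let step : (i : μ.ord.ToType) → ((j : μ.ord.ToType) → j < i → α) → α := fun i f =>
    if h : ∃ a, (∀ j (hj : j < i), R a (f j hj)) ∧ R a (c i) then h.choose else a0
  let s : μ.ord.ToType → α := WellFounded.fix (wellFounded_lt (α := μ.ord.ToType)) step
  have hs : ∀ i, s i = step i (fun j _ => s j) := fun i => WellFounded.fix_eq _ _ _
  have key : ∀ i, (∀ j, j < i → R (s i) (s j)) ∧ R (s i) (c i) := by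
    intro i
    have hex : ∃ a, (∀ j (_ : j < i), R a (s j)) ∧ R a (c i) := by
      have hcard : #(↥((s '' Set.Iio i) ∪ {c i})) < μ := by
        refine lt_of_le_of_lt (mk_union_le _ _) (Cardinal.add_lt_of_lt hinf ?_ ?_)
        · exact lt_of_le_of_lt mk_image_le (Cardinal.mk_Iio_toType_ord_lt i)
        · rw [mk_singleton]
          exact lt_of_lt_of_le Cardinal.one_lt_aleph0 hinf
      obtain ⟨a, ha⟩ := H _ hcard
      exact ⟨a, fun j hj => ha _ (Or.inl ⟨j, hj, rfl⟩), ha _ (Or.inr rfl)⟩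
    have h1 : s i = hex.choose := by
      rw [hs i]
      exact dif_pos hex
    rw [h1]
    exact ⟨fun j hj => hex.choose_spec.1 j hj, hex.choose_spec.2⟩
  exact ⟨s, fun i j hij => (key j).1 i hij, fun i => (key i).2⟩

/-- the closure points of `ψ` are almost all closure points of `φ` -/
def Below (ψ φ : KK κ → KK κ) : Prop :=
  ∀ᶠ x in atTop, (∀ z, z < x → ψ z < x) → ∀ z, z < x → φ z < x

theorem Below.trans {ψ φ χ : KK κ → KK κ} (h1 : Below ψ φ) (h2 : Below φ χ) : Below ψ χ := by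
  filter_upwards [h1, h2] with x a b c
  exact b (a c)

theorem below_all (hreg : κ.IsRegular) (h0 : ℵ₀ < κ) :
    ∀ (μ : Cardinal.{u}), μ < tNum κ → ∀ (I : Type u), #I = μ → ∀ Φ : I → KK κ → KK κ,
      ∃ ψ, ∀ i, Below ψ (Φ i) := by
  classical
  have hne := neK hreg
  intro μ
  induction μ using WellFoundedLT.induction with
  | ind μ ih =>
  intro hμ I hI Φ
  rcases lt_or_ge μ κ with hlt | hge
  · have : ∀ z, ∃ b, ∀ i, Φ i z < b := fun z => bdd_range hreg (by rwa [hI]) (fun i => Φ i z)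
    choose ψ hψ using this
    exact ⟨ψ, fun i => Filter.Eventually.of_forall fun x hx z hz => (hψ z i).trans (hx z hz)⟩
  · have hinf : ℵ₀ ≤ μ := h0.le.trans hge
    obtain ⟨e⟩ : Nonempty (μ.ord.ToType ≃ I) := by
      rw [← Cardinal.eq, Cardinal.mk_ord_toType, hI]
    have H : ∀ S : Set (KK κ → KK κ), #(↥S) < μ → ∃ a, ∀ b ∈ S, Below a b := by
      intro S hS
      obtain ⟨ψ, hψ⟩ := ih _ hS (hS.trans hμ) S rfl (fun s => s.1)
      exact ⟨ψ, fun b hb => hψ ⟨b, hb⟩⟩
    obtain ⟨s, hs1, hs2⟩ := exists_chain Below μ hinf H (fun i => Φ (e i))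
    have hJne : Nonempty μ.ord.ToType := by
      rw [← Cardinal.mk_ne_zero_iff, Cardinal.mk_ord_toType]
      exact (lt_of_lt_of_le Cardinal.aleph0_pos hinf).ne'
    have hZ : #(KK κ × PUnit.{u+1}) = κ := by simp
    obtain ⟨X, f, hX, -, hXP⟩ := use_t hreg hZ (J := μ.ord.ToType)
      (by rwa [Cardinal.mk_ord_toType]) (fun _ => Set.univ)
      (fun _ => by
        refine lt_of_le_of_lt (mk_set_le _) ?_
        simpa using lt_of_lt_of_le Cardinal.one_lt_aleph0 hreg.aleph0_le)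
      (fun j x _ => ∀ z, z < x → s j z < x) (fun _ _ _ _ => Set.mem_univ _)
      (fun i j hij => by
        filter_upwards [hs1 i j hij] with x hx _ h
        exact hx h)
      (fun Γ hΓ => by
        have : ∀ z, ∃ b, ∀ i : Γ, s i.1 z < b := fun z => bdd_range hreg hΓ (fun i => s i.1 z)
        choose ψ hψ using this
        rw [Filter.frequently_atTop]
        intro b
        obtain ⟨x, hx, hcl⟩ := exists_closed hreg h0 ψ b
        exact ⟨x, hx.le, PUnit.unit, fun i hi z hz => (hψ z ⟨i, hi⟩).trans (hcl z hz)⟩)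
    have hnext : ∀ z : KK κ, ∃ y, z < y ∧ y ∈ X := by
      intro z
      obtain ⟨z', hz'⟩ := noMax hreg z
      obtain ⟨y, hy, hyX⟩ := (Filter.frequently_atTop.1 hX) z'
      exact ⟨y, lt_of_lt_of_le hz' hy, hyX⟩
    choose ψ hψ1 hψ2 using hnext
    have hψs : ∀ j, Below ψ (s j) := by
      intro j
      obtain ⟨b, hb⟩ := Filter.eventually_atTop.1 (hXP j)
      obtain ⟨b', hb'⟩ := noMax hreg b
      filter_upwards [eventually_ge_atTop b'] with x hx hcl z hz
      have hw : max z b < x := max_lt hz (lt_of_lt_of_le hb' hx)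
      have h1 := hcl _ hw
      have h2 := hψ1 (max z b)
      have h3 := hb (ψ (max z b)) ((le_max_right z b).trans h2.le) (hψ2 _)
      exact (h3 z (lt_of_le_of_lt (le_max_left z b) h2)).trans h1
    refine ⟨ψ, fun i => ?_⟩
    have := (hψs (e.symm i)).trans (hs2 (e.symm i))
    simpa using this

/-- fewer than `t` functions: an unbounded set of common closure points -/
theorem exists_common_closed (hreg : κ.IsRegular) (h0 : ℵ₀ < κ) {I : Type u}
    (hI : #I < tNum κ) (Φ : I → KK κ → KK κ) :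
    ∃ E : Set (KK κ), (∃ᶠ x in atTop, x ∈ E) ∧
      ∀ i, ∀ᶠ x in atTop, x ∈ E → ∀ z, z < x → Φ i z < x := by
  have hne := neK hreg
  obtain ⟨ψ, hψ⟩ := below_all hreg h0 _ hI I rfl Φ
  refine ⟨{x | ∀ z, z < x → ψ z < x}, ?_, fun i => hψ i⟩
  rw [Filter.frequently_atTop]
  intro b
  obtain ⟨x, hx, hcl⟩ := exists_closed hreg h0 ψ b
  exact ⟨x, hx.le, hcl⟩

/-- fewer than `t` functions are dominated by one -/
theorem exists_dom (hreg : κ.IsRegular) (h0 : ℵ₀ < κ) {I : Type u}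
    (hI : #I < tNum κ) (Φ : I → KK κ → KK κ) :
    ∃ g : KK κ → KK κ, ∀ i, ∀ᶠ x in atTop, Φ i x < g x := by
  have hne := neK hreg
  obtain ⟨E, hE, hEc⟩ := exists_common_closed hreg h0 hI Φ
  have hnext : ∀ z : KK κ, ∃ y, z < y ∧ y ∈ E := by
    intro z
    obtain ⟨z', hz'⟩ := noMax hreg z
    obtain ⟨y, hy, hyX⟩ := (Filter.frequently_atTop.1 hE) z'
    exact ⟨y, lt_of_lt_of_le hz' hy, hyX⟩
  choose g hg1 hg2 using hnext
  refine ⟨g, fun i => ?_⟩
  obtain ⟨b, hb⟩ := Filter.eventually_atTop.1 (hEc i)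
  filter_upwards [eventually_ge_atTop b] with x hx
  exact hb (g x) (hx.trans (hg1 x).le) (hg2 x) x (hg1 x)

end Pool.Agent.Lib.MP_eff308_lc.T
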