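import Pool.Agent.Lib.MP_eff308_lc.T.RankG

open Cardinal Set Filter

universe u

namespace Pool.Agent.Lib.MP_eff308_lc.T

variable {κ : Cardinal.{u}}

theorem ev_above (hreg : κ.IsRegular) {p : KK κ → Prop} (h : ∀ᶠ x in atTop, p x) :
    ∀ᶠ μ in atTop, ∀ x, μ ≤ x → p x := by
  have := neK hreg
  obtain ⟨b, hb⟩ := Filter.eventually_atTop.1 h
  filter_upwards [eventually_ge_atTop b] with μ hμ x hx
  exact hb x (hμ.trans hx)

theorem freq_of_ev (hreg : κ.IsRegular) {p : KK κ → Prop} (h : ∀ᶠ x in atTop, p x) :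
    ∃ᶠ x in atTop, p x := by
  have := atTop_neBot hreg
  exact h.frequently

theorem coreG (hreg : κ.IsRegular) (h0 : ℵ₀ < κ) (hpow : κ ^< κ = κ) (hp : κ < pNum κ)
    {N : Type u} (rank : N → KK κ) (hN : ∀ b, #{m : N // rank m < b} < κ)
    (hDP : ∀ b, DP κ {m : N // rank m < b})
    {ι : N → Type u} [∀ m, LinearOrder (ι m)] [∀ m, WellFoundedLT (ι m)]
    (hι : #(Σ m, ι m) < pNum κ)
    {J : Type u} [LinearOrder J] [WellFoundedLT J] (hJ : #J < tNum κ)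
    (hJb : ∀ Γ : Set J, #(↥Γ) ≤ κ → ∃ a, ∀ b ∈ Γ, b ≤ a)
    (E : Set (KK κ)) (hE : ∃ᶠ x in atTop, x ∈ E)
    (V : KK κ → Set (KK κ)) (hV : ∀ x, #(↥(V x)) < κ)
    (R : ∀ m, ι m → KK κ → Set (KK κ)) (B : J → KK κ → Set (KK κ))
    (hR : ∀ m i j, i < j → ∀ᶠ x in atTop, x ∈ E → ∀ y ∈ V x, y ∈ R m j x → y ∈ R m i x)
    (hB : ∀ a b, a < b → ∀ᶠ x in atTop, x ∈ E → ∀ y ∈ V x, y ∈ B b x → y ∈ B a x)
    (hne : ∀ a, ∃ f : KK κ → KK κ, (∀ᶠ x in atTop, x ∈ E → f x ∈ V x ∧ f x ∈ B a x) ∧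
      ∀ m i, ∀ᶠ x in atTop, x ∈ E → f x ∈ R m i x) :
    ∃ (X : Set (KK κ)) (v f : KK κ → KK κ), (∃ᶠ x in atTop, x ∈ X) ∧
      (∀ x ∈ X, x ≤ v x ∧ f x ∈ V (v x)) ∧
      (∀ m i, ∀ᶠ x in atTop, x ∈ X → f x ∈ R m i (v x)) ∧
      (∀ a, ∀ᶠ x in atTop, x ∈ X → f x ∈ B a (v x)) := by
  classical
  have hneK := neK hreg
  have hpinf : ℵ₀ ≤ pNum κ := hreg.aleph0_le.trans hp.le
  have hJb' : ∀ Γ : Set J, #(↥Γ) < κ → ∃ a, ∀ b ∈ Γ, b ≤ a := fun Γ hΓ => hJb Γ hΓ.le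
  obtain ⟨X0, r, hX0, hX0E, hr⟩ := step_rank hreg hpow hp rank hN hι E hE V hV R hR
  have hB' : ∀ a b, a ≤ b → ∀ᶠ x in atTop, x ∈ E → ∀ y ∈ V x, y ∈ B b x → y ∈ B a x := by
    intro a b hab
    rcases hab.eq_or_lt with rfl | hlt
    · exact Filter.Eventually.of_forall fun x _ y _ h => h
    · exact hB a b hlt
  let L : ∀ μ : KK κ, J → KK κ → Set ({m : N // rank m < μ} → KK κ) := fun μ a x =>
    {ρ | ∃ y ∈ V x, y ∈ B a x ∧ ∀ m, ρ m ≤ r x m.1 y}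
  have hdec : ∀ a b, a ≤ b → ∀ᶠ x in atTop, x ∈ X0 → ∀ μ, L μ b x ⊆ L μ a x := by
    intro a b hab
    filter_upwards [hB' a b hab] with x hx hxX μ ρ hρ
    obtain ⟨y, hy, hyB, hyr⟩ := hρ
    exact ⟨y, hy, hx (hX0E hxX) y hy hyB, hyr⟩
  have hstab1 : ∀ μ, ∃ a0, ∀ b, a0 ≤ b → ∃ᶠ x in atTop, x ∈ X0 ∧ L μ b x = L μ a0 x := by
    intro μ
    refine stab_exists hreg (hDP μ) hJb' X0 hX0 (L μ) ?_ ?_
    · rintro a x ρ σ ⟨y, hy, hyB, hyr⟩ hσ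
      exact ⟨y, hy, hyB, fun m => (hσ m).trans (hyr m)⟩
    · intro a b hab
      filter_upwards [hdec a b hab] with x hx hxX
      exact hx hxX μ
  choose as has using hstab1
  obtain ⟨a0, ha0⟩ := hJb (Set.range as) (mk_range_le.trans mkKK.le)
  have hneJ : Nonempty J := ⟨a0⟩
  have hstab2 : ∀ μ b, ∃ x, μ ≤ x ∧ x ∈ X0 ∧ L μ (max a0 b) x = L μ a0 x := by
    intro μ b
    have hasμ : as μ ≤ a0 := ha0 _ ⟨μ, rfl⟩
    have h1 := has μ (max a0 b) (hasμ.trans (le_max_left _ _))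
    have h2 := (h1.and_eventually ((hdec (as μ) a0 hasμ).and
      ((hdec a0 (max a0 b) (le_max_left _ _)).and (eventually_ge_atTop μ)))).exists
    obtain ⟨x, ⟨hx0, he⟩, h3, h4, hμ⟩ := h2
    refine ⟨x, hμ, hx0, Set.Subset.antisymm (h4 hx0 μ) ?_⟩
    rw [he]
    exact h3 hx0 μ
  choose w hw1 hw2 hw3 using hstab2
  obtain ⟨g, hg⟩ := exists_dom hreg h0 hJ (fun b μ => w μ b)
  -- first use of `t`
  have hZK : #(KK κ × KK κ) = κ := card_prod_eq hreg mkKK.le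
  obtain ⟨X1', v, hX1', hv, hX1P⟩ := use_t hreg hZK (J := J) hJ
    (fun μ => {x | μ ≤ x ∧ x < g μ}) (fun μ => small_of_bdd (b := g μ) fun s hs => hs.2)
    (fun b μ x => x ∈ X0 ∧ (μ ≤ x ∧ x < g μ) ∧ L μ (max a0 b) x = L μ a0 x)
    (fun _ _ _ hP => hP.2.1)
    (fun i j hij => by
      filter_upwards [ev_above hreg (hdec (max a0 i) (max a0 j) (max_le_max le_rfl hij.le)),
        ev_above hreg (hdec a0 (max a0 i) (le_max_left _ _))] with μ h1 h2 x hP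
      refine ⟨hP.1, hP.2.1, Set.Subset.antisymm (h2 x hP.2.1.1 hP.1 μ) ?_⟩
      rw [← hP.2.2]
      exact h1 x hP.2.1.1 hP.1 μ)
    (fun Γ hΓ => by
      obtain ⟨b, hb⟩ := hJb' Γ hΓ
      have hall : ∀ᶠ μ in atTop, ∀ i ∈ Γ, ∀ x, μ ≤ x → x ∈ X0 →
          L μ (max a0 b) x ⊆ L μ (max a0 i) x ∧ L μ (max a0 i) x ⊆ L μ a0 x := by
        refine ev_all_mem hreg hΓ fun i hi => ?_
        filter_upwards [ev_above hreg (hdec (max a0 i) (max a0 b) (max_le_max le_rfl (hb i hi))),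
          ev_above hreg (hdec a0 (max a0 i) (le_max_left _ _))] with μ h1 h2 x hμx hx
        exact ⟨h1 x hμx hx μ, h2 x hμx hx μ⟩
      refine freq_of_ev hreg ?_
      filter_upwards [hall, hg b] with μ h1 h2
      refine ⟨w μ b, fun i hi => ⟨hw2 μ b, ⟨hw1 μ b, h2⟩, ?_⟩⟩
      have h3 := h1 i hi (w μ b) (hw1 μ b) (hw2 μ b)
      refine Set.Subset.antisymm h3.2 ?_
      rw [← hw3 μ b]
      exact h3.1)
  let X1 : Set (KK κ) := {μ | μ ∈ X1' ∧ v μ ∈ X0}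
  have hX1 : ∃ᶠ μ in atTop, μ ∈ X1 :=
    (hX1'.and_eventually (hX1P a0)).mono fun μ hμ => ⟨hμ.1, (hμ.2 hμ.1).1⟩
  have hv1 : ∀ μ ∈ X1, μ ≤ v μ := fun μ hμ => (hv μ hμ.1).1
  have hX1E : ∀ μ ∈ X1, v μ ∈ E := fun μ hμ => hX0E hμ.2
  have hstab : ∀ b, ∀ᶠ μ in atTop, μ ∈ X1 → L μ (max a0 b) (v μ) = L μ a0 (v μ) := by
    intro b
    filter_upwards [hX1P b] with μ hμ hμ1
    exact (hμ hμ1.1).2.2
  -- second use of `p`
  obtain ⟨f0, hf0, hf0R⟩ := hne a0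
  let P : Option (Σ m, ι m) → KK κ → ZB rank → Prop := fun i μ z =>
    match i with
    | none => μ ∈ X1 ∧ (fun m : {m : N // rank m < μ} => dec hneK z m.1) ∈ L μ a0 (v μ)
    | some mi => ∀ y ∈ V (v μ), dec hneK z mi.1 ≤ r (v μ) mi.1 y → y ∈ R mi.1 mi.2 (v μ)
  have hcard : #(Option (Σ m, ι m)) < pNum κ := by
    rw [Cardinal.mk_option]
    exact Cardinal.add_lt_of_lt hpinf hι (lt_of_lt_of_le Cardinal.one_lt_aleph0 hpinf)
  have hSIP : ∀ Γ : Set (Option (Σ m, ι m)), #(↥Γ) < κ →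
      ∃ᶠ x in atTop, ∃ z, ∀ i ∈ Γ, P i x z := by
    intro Γ hΓ
    let Γ' : Set (Σ m, ι m) := {q | some q ∈ Γ}
    have hΓ' : #(↥Γ') < κ := by
      refine lt_of_le_of_lt (Cardinal.mk_le_of_injective
        (f := fun q : Γ' => (⟨some q.1, q.2⟩ : Γ)) ?_) hΓ
      intro q q' h
      have h1 : some q.1 = some q'.1 := congrArg Subtype.val h
      exact Subtype.ext (Option.some.inj h1)
    have hall1 : ∀ᶠ μ in atTop, ∀ q ∈ Γ', ∀ x, μ ≤ x → x ∈ X0 →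
        (f0 x ∈ R q.1 q.2 x ∧ ∃ c, ∀ y ∈ V x, (y ∈ R q.1 q.2 x ↔ c < r x q.1 y)) := by
      refine ev_all_mem hreg hΓ' fun q _ => ?_
      filter_upwards [ev_above hreg (hf0R q.1 q.2), ev_above hreg (hr q.1 q.2)] with μ h1 h2 x
        hμx hx
      exact ⟨h1 x hμx (hX0E hx), h2 x hμx hx⟩
    have hall2 : ∀ᶠ μ in atTop, ∀ q ∈ Γ', rank q.1 < μ := by
      refine ev_all_mem hreg hΓ' fun q _ => ?_
      obtain ⟨b, hb⟩ := noMax hreg (rank q.1)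
      filter_upwards [eventually_ge_atTop b] with μ hμ
      exact lt_of_lt_of_le hb hμ
    refine (hX1.and_eventually (hall1.and (hall2.and (ev_above hreg hf0)))).mono ?_
    rintro μ ⟨hμ, ha1, ha2, ha3⟩
    have hμv := hv1 μ hμ
    have hfV := ha3 (v μ) hμv (hX1E μ hμ)
    let z : ZB rank := ⟨μ, fun m => r (v μ) m.1 (f0 (v μ))⟩
    have hz : ∀ m, rank m < μ → dec hneK z m = r (v μ) m (f0 (v μ)) := by
      intro m hm
      exact dif_pos (show rank m < z.1 from hm)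
    refine ⟨z, fun i hi => ?_⟩
    rcases i with _ | q
    · refine ⟨hμ, f0 (v μ), hfV.1, hfV.2, fun m => ?_⟩
      exact (hz m.1 m.2).le
    · intro y hy hle
      obtain ⟨h1, c, hc⟩ := ha1 q hi (v μ) hμv hμ.2
      rw [hz q.1 (ha2 q hi)] at hle
      exact (hc y hy).2 (lt_of_lt_of_le ((hc _ hfV.1).1 h1) hle)
  obtain ⟨X2', h, hX2', hXP2⟩ := use_p hreg (card_ZB hreg hpow hN) hp hcard P hSIP
  let X2 : Set (KK κ) := {μ | μ ∈ X1 ∧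
    (fun m : {m : N // rank m < μ} => dec hneK (h μ) m.1) ∈ L μ a0 (v μ) ∧ μ ∈ X2'}
  have hX2 : ∃ᶠ μ in atTop, μ ∈ X2 :=
    (hX2'.and_eventually (hXP2 none)).mono fun x hx => ⟨(hx.2 hx.1).1, (hx.2 hx.1).2, hx.1⟩
  have hh : ∀ m i, ∀ᶠ μ in atTop, μ ∈ X2 → ∀ y ∈ V (v μ), dec hneK (h μ) m ≤ r (v μ) m y →
      y ∈ R m i (v μ) := by
    intro m i
    filter_upwards [hXP2 (some ⟨m, i⟩)] with x hx hxX
    exact hx hxX.2.2
  -- final tower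
  obtain ⟨X3, f, hX3, hX3V, hXP3⟩ := use_t hreg hZK (J := J) hJ (fun μ => V (v μ))
    (fun μ => hV _)
    (fun b μ y => μ ∈ X2 ∧ y ∈ V (v μ) ∧ y ∈ B (max a0 b) (v μ) ∧
      ∀ m, rank m < μ → dec hneK (h μ) m ≤ r (v μ) m y)
    (fun _ _ _ hP => hP.2.1)
    (fun i j hij => by
      filter_upwards [ev_above hreg (hB' (max a0 i) (max a0 j) (max_le_max le_rfl hij.le))]
        with μ hμ y hP
      exact ⟨hP.1, hP.2.1, hμ (v μ) (hv1 μ hP.1.1) (hX1E μ hP.1.1) y hP.2.1 hP.2.2.1, hP.2.2.2⟩)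
    (fun Γ hΓ => by
      obtain ⟨b, hb⟩ := hJb' Γ hΓ
      have hall : ∀ᶠ μ in atTop, ∀ i ∈ Γ, ∀ x, μ ≤ x → x ∈ E → ∀ y ∈ V x,
          y ∈ B (max a0 b) x → y ∈ B (max a0 i) x :=
        ev_all_mem hreg hΓ fun i hi => ev_above hreg (hB' _ _ (max_le_max le_rfl (hb i hi)))
      refine (hX2.and_eventually (hall.and (hstab b))).mono ?_
      rintro μ ⟨hμ2, hall, hst⟩
      have hL : (fun m : {m : N // rank m < μ} => dec hneK (h μ) m.1) ∈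
          L μ (max a0 b) (v μ) := by
        rw [hst hμ2.1]
        exact hμ2.2.1
      obtain ⟨y, hy, hyB, hyr⟩ := hL
      exact ⟨y, fun i hi => ⟨hμ2, hy, hall i hi (v μ) (hv1 μ hμ2.1) (hX1E μ hμ2.1) y hy hyB,
        fun m hm => hyr ⟨m, hm⟩⟩⟩)
  let X4 : Set (KK κ) := {μ | μ ∈ X3 ∧ μ ∈ X2}
  have hX4 : ∃ᶠ μ in atTop, μ ∈ X4 :=
    (hX3.and_eventually (hXP3 a0)).mono fun x hx => ⟨hx.1, (hx.2 hx.1).1⟩
  refine ⟨X4, v, f, hX4, fun μ hμ => ⟨hv1 μ hμ.2.1, hX3V μ hμ.1⟩, fun m i => ?_, fun a => ?_⟩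
  · obtain ⟨b, hb⟩ := noMax hreg (rank m)
    filter_upwards [hXP3 a0, hh m i, eventually_ge_atTop b] with μ h1 h2 h3 hμ
    have := h1 hμ.1
    exact h2 this.1 _ this.2.1 (this.2.2.2 m (lt_of_lt_of_le hb h3))
  · filter_upwards [hXP3 a, ev_above hreg (hB' a (max a0 a) (le_max_right _ _))] with μ h1 h2 hμ
    have := h1 hμ.1
    exact h2 (v μ) (hv1 μ hμ.2.1) (hX1E μ hμ.2.1) _ this.2.1 this.2.2.1

end Pool.Agent.Lib.MP_eff308_lc.T
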