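import Mathlib

open Cardinal Set

universe u

namespace Pool.Agent.Lib.MP_eff308_lc.T

/-- The set of ordinals below the initial ordinal of `κ`, as a type of cardinality `κ`. -/
abbrev KK (κ : Cardinal.{u}) : Type u := κ.ord.ToType

/-- `A` is almost contained in `B`: fewer than `#X` elements of `A` lie outside `B`. -/
def Almost {X : Type u} (A B : Set X) : Prop := #(↥(A \ B)) < #X

/-- Strong intersection property: the intersection of fewer than `#X` members of `F` always
has size `#X`. -/
def SIP {X : Type u} (F : Set (Set X)) : Prop :=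
  ∀ G : Set (Set X), G ⊆ F → #(↥G) < #X → #(↥(⋂₀ G)) = #X

/-- `F` has a pseudointersection of size `#X`. -/
def HasPI {X : Type u} (F : Set (Set X)) : Prop :=
  ∃ A : Set X, #(↥A) = #X ∧ ∀ B ∈ F, Almost A B

/-- `T` is well-ordered by reverse almost inclusion: every nonempty subfamily has a member
which almost contains all its members. -/
def StarWO {X : Type u} (T : Set (Set X)) : Prop :=
  ∀ S : Set (Set X), S ⊆ T → S.Nonempty → ∃ A ∈ S, ∀ B ∈ S, Almost B A

/-- The pseudointersection number of `κ`. -/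
noncomputable def pNum (κ : Cardinal.{u}) : Cardinal.{u} :=
  sInf {c | ∃ F : Set (Set (KK κ)), (∀ B ∈ F, #(↥B) = κ) ∧ SIP F ∧ ¬ HasPI F ∧ #(↥F) = c}

/-- The tower number of `κ`. -/
noncomputable def tNum (κ : Cardinal.{u}) : Cardinal.{u} :=
  sInf {c | ∃ T : Set (Set (KK κ)), (∀ B ∈ T, #(↥B) = κ) ∧ SIP T ∧ StarWO T ∧ ¬ HasPI T ∧
    #(↥T) = c}

end Pool.Agent.Lib.MP_eff308_lc.T
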