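import Pool.Agent.Lib.MP_eff308_lc.T.Club

open Cardinal Set Filter

universe u

namespace Pool.Agent.Lib.MP_eff308_lc.T

variable {κ : Cardinal.{u}}

/-- no strictly decreasing sequence of length `δ` of lower sets of `N → KK κ`, for one regular
`δ < κ` -/
def DP (κ : Cardinal.{u}) (N : Type u) : Prop :=
  ∃ δ : Cardinal.{u}, δ.IsRegular ∧ δ < κ ∧ ∀ L : KK δ → Set (N → KK κ),
    (∀ ξ ρ σ, ρ ∈ L ξ → σ ≤ ρ → σ ∈ L ξ) → (∀ ξ η, ξ ≤ η → L η ⊆ L ξ) →
    ∃ ξ η, ξ < η ∧ L ξ = L η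

/-- Dickson's lemma for a sequence indexed by `ℕ` -/
theorem dickson {M : Type u} [Finite M] (L : ℕ → Set (M → KK κ))
    (hlow : ∀ n ρ σ, ρ ∈ L n → σ ≤ ρ → σ ∈ L n) (hdec : ∀ n, L (n + 1) ⊆ L n) :
    ∃ n, L (n + 1) = L n := by
  by_contra hcon
  push Not at hcon
  have hex : ∀ n, ∃ ρ, ρ ∈ L n ∧ ρ ∉ L (n + 1) := fun n => by
    by_contra h
    push Not at h
    exact hcon n (Set.Subset.antisymm (hdec n) h)
  choose ρ h1 h2 using hex
  have hpwo : (Set.univ.pi (fun _ : M => (Set.univ : Set (KK κ)))).IsPWO :=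
    Set.IsPWO.pi fun _ => Set.isPWO_of_wellQuasiOrderedLE _
  obtain ⟨m, n, hmn, hle⟩ := hpwo (fun n => ⟨ρ n, by simp⟩)
  have hmono : ∀ a b, a ≤ b → L b ⊆ L a := by
    intro a b hab
    induction b, hab using Nat.le_induction with
    | base => exact subset_rfl
    | succ b _ ih => exact (hdec b).trans ih
  have h3 : ρ n ∈ L (m + 1) := hmono (m + 1) n hmn (h1 n)
  exact h2 m (hlow _ _ _ h3 hle)

theorem dp_finite (h0 : ℵ₀ < κ) (N : Type u) [Finite N] : DP κ N := by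
  have hreg0 : (ℵ₀ : Cardinal.{u}).IsRegular := Cardinal.isRegular_aleph0
  refine ⟨ℵ₀, hreg0, h0, fun L hlow hdec => ?_⟩
  have hne := neK hreg0
  choose nx hnx using noMax hreg0
  let f : ℕ → KK ℵ₀ := fun n => nx^[n] hne.some
  have hf : ∀ n, f (n + 1) = nx (f n) := fun n => Function.iterate_succ_apply' nx n _
  obtain ⟨n, hn⟩ := dickson (fun n => L (f n)) (fun n => hlow (f n)) (fun n => by
    refine hdec _ _ ?_
    rw [hf n]
    exact (hnx _).le)
  refine ⟨f n, f (n + 1), ?_, hn.symm⟩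
  rw [hf n]
  exact hnx _

section Strong

variable {N : Type u} {δ : Cardinal.{u}}

/-- the type of an index in a sequence of functions -/
theorem exists_tuple (ρ : KK δ → N → KK κ) (η : KK δ) :
    ∃ (u : N → Option (KK δ)) (D : Set N), (∀ m ξ, u m = some ξ → ξ < η) ∧
      (∀ m ξ, u m = some ξ → ρ η m ≤ ρ ξ m) ∧
      (∀ m ζ, ζ < η → ρ η m ≤ ρ ζ m → ∃ ξ, u m = some ξ ∧ ρ ξ m ≤ ρ ζ m) ∧
      ∀ m, m ∈ D ↔ ∀ ξ, u m = some ξ → ρ η m < ρ ξ m := by
  classical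
  have hex : ∀ m, ∃ o : Option (KK δ), (∀ ξ, o = some ξ → ξ < η) ∧
      (∀ ξ, o = some ξ → ρ η m ≤ ρ ξ m) ∧
      (∀ ζ, ζ < η → ρ η m ≤ ρ ζ m → ∃ ξ, o = some ξ ∧ ρ ξ m ≤ ρ ζ m) := by
    intro m
    by_cases h : ∃ ξ, ξ < η ∧ ρ η m ≤ ρ ξ m
    · let W : Set (KK κ) := {v | ∃ ξ, ξ < η ∧ ρ η m ≤ ρ ξ m ∧ ρ ξ m = v}
      have hW : W.Nonempty := by
        obtain ⟨ξ, h1, h2⟩ := h
        exact ⟨_, ξ, h1, h2, rfl⟩
      obtain ⟨ξ, h1, h2, h3⟩ := wellFounded_lt.min_mem W hW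
      refine ⟨some ξ, ?_, ?_, ?_⟩
      · intro ξ' hξ'
        cases hξ'
        exact h1
      · intro ξ' hξ'
        cases hξ'
        exact h2
      · intro ζ hζ1 hζ2
        refine ⟨ξ, rfl, ?_⟩
        rw [h3]
        exact not_lt.1 (wellFounded_lt.not_lt_min W (x := ρ ζ m) ⟨ζ, hζ1, hζ2, rfl⟩)
    · push Not at h
      refine ⟨none, by simp, by simp, fun ζ hζ1 hζ2 => ?_⟩
      exact absurd hζ2 (not_le.2 (h ζ hζ1))
  choose u hu1 hu2 hu3 using hex
  exact ⟨u, {m | ∀ ξ, u m = some ξ → ρ η m < ρ ξ m}, hu1, hu2, hu3, fun m => Iff.rfl⟩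

theorem dp_strong (hreg : κ.IsRegular) (hsl : κ.IsStrongLimit) (h0 : ℵ₀ < κ) (N : Type u)
    (hN : #N < κ) : DP κ N := by
  classical
  let μ : Cardinal.{u} := max (#N) ℵ₀
  have hμ : μ < κ := max_lt hN h0
  have hμinf : ℵ₀ ≤ μ := le_max_right _ _
  let θ : Cardinal.{u} := 2 ^ μ
  have hθ : θ < κ := hsl.two_power_lt hμ
  have hμθ : μ < θ := Cardinal.cantor μ
  have hθinf : ℵ₀ ≤ θ := hμinf.trans hμθ.le
  let δ : Cardinal.{u} := Order.succ θ
  have hδreg : δ.IsRegular := Cardinal.isRegular_succ hθinf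
  have hδ : δ < κ := by
    have h1 : δ ≤ 2 ^ θ := Order.succ_le_of_lt (Cardinal.cantor θ)
    exact h1.trans_lt (hsl.two_power_lt hθ)
  refine ⟨δ, hδreg, hδ, fun L hlow hdec => ?_⟩
  by_contra hcon
  push Not at hcon
  have hneδ := neK hδreg
  -- successors in `KK δ`
  have hsucc : ∀ ξ : KK δ, ∃ ξ' : KK δ, ξ < ξ' ∧ ∀ η, ξ < η → ξ' ≤ η := by
    intro ξ
    let W : Set (KK δ) := {η | ξ < η}
    have hW : W.Nonempty := noMax hδreg ξ
    refine ⟨wellFounded_lt.min W hW, wellFounded_lt.min_mem W hW, fun η hη => ?_⟩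
    exact not_lt.1 (wellFounded_lt.not_lt_min W hη)
  choose sc hsc1 hsc2 using hsucc
  have hex : ∀ ξ, ∃ ρ, ρ ∈ L ξ ∧ ρ ∉ L (sc ξ) := fun ξ => by
    by_contra h
    push Not at h
    exact hcon ξ (sc ξ) (hsc1 ξ) (Set.Subset.antisymm h (hdec _ _ (hsc1 ξ).le))
  choose ρ hρ1 hρ2 using hex
  have hbad : ∀ ξ η, ξ < η → ¬ ρ ξ ≤ ρ η := by
    intro ξ η hξη hle
    exact hρ2 ξ (hlow _ _ _ (hdec _ _ (hsc2 ξ η hξη) (hρ1 η)) hle)
  choose U D hU1 hU2 hU3 hD using exists_tuple ρ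
  have hinj : ∀ η η', η < η' → ¬ (U η = U η' ∧ D η = D η') := by
    rintro η η' hη ⟨hUU, hDD⟩
    apply hbad η η' hη
    intro m
    by_contra hlt
    have hlt' : ρ η' m < ρ η m := not_le.1 hlt
    obtain ⟨ξ, hξ, hξle⟩ := hU3 η' m η hη hlt'.le
    rw [← hUU] at hξ
    have h1 : ρ η m ≤ ρ ξ m := hU2 η m ξ hξ
    have h2 : ρ ξ m = ρ η m := le_antisymm hξle h1
    have h3 : m ∉ D η := by
      intro hm
      have := (hD η m).1 hm ξ hξ
      rw [h2] at this
      exact lt_irrefl _ this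
    have h4 : m ∉ D η' := hDD ▸ h3
    apply h4
    rw [hD η' m]
    intro ξ' hξ'
    rw [← hUU, hξ] at hξ'
    cases hξ'
    rw [h2]
    exact hlt'
  -- the bound
  have hΦ : ∀ ζ : KK δ, ∃ b : KK δ, ∀ η, (∀ m ξ, U η m = some ξ → ξ ≤ ζ) → η < b := by
    intro ζ
    have hcard : #(↥{η : KK δ | ∀ m ξ, U η m = some ξ → ξ ≤ ζ}) < δ := by
      have hIic : #(↥(Set.Iic ζ)) ≤ θ := by
        obtain ⟨ζ', hζ'⟩ := noMax hδreg ζ
        have : #(↥(Set.Iic ζ)) < δ := small_of_bdd (b := ζ') fun s hs => lt_of_le_of_lt hs hζ'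
        exact Order.lt_succ_iff.1 this
      let g : {η : KK δ | ∀ m ξ, U η m = some ξ → ξ ≤ ζ} → (N → Option (Set.Iic ζ)) × Set N :=
        fun η => (fun m => match h : U η.1 m with
          | none => none
          | some ξ => some ⟨ξ, η.2 m ξ h⟩, D η.1)
      have hg : Function.Injective g := by
        intro η η' he
        have h1 : U η.1 = U η'.1 := by
          funext m
          have h2 := congrFun (congrArg Prod.fst he) m
          have h3 : ∀ η : {η : KK δ | ∀ m ξ, U η m = some ξ → ξ ≤ ζ},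
              ((g η).1 m).map Subtype.val = U η.1 m := by
            intro η
            simp only [g]
            split
            · next h => exact h.symm
            · next ξ h => exact h.symm
          rw [← h3 η, ← h3 η', h2]
        have h2 : D η.1 = D η'.1 := congrArg Prod.snd he
        rcases lt_trichotomy η.1 η'.1 with hlt | heq | hlt
        · exact absurd ⟨h1, h2⟩ (hinj _ _ hlt)
        · exact Subtype.ext heq
        · exact absurd ⟨h1.symm, h2.symm⟩ (hinj _ _ hlt)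
      refine lt_of_le_of_lt (Cardinal.mk_le_of_injective hg) ?_
      refine lt_of_le_of_lt ?_ (Order.lt_succ θ)
      rw [mk_prod, Cardinal.lift_id, Cardinal.lift_id]
      refine (mul_le_mul' ?_ ?_).trans (Cardinal.mul_eq_self hθinf).le
      · rw [← Cardinal.power_def, Cardinal.mk_option]
        have h1 : #(↥(Set.Iic ζ)) + 1 ≤ θ := by
          refine (add_le_add hIic ?_).trans (Cardinal.add_eq_self hθinf).le
          exact Cardinal.one_le_aleph0.trans hθinf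
        refine (Cardinal.power_le_power_right h1).trans ?_
        have h2 : θ ^ #N ≤ θ ^ μ := Cardinal.power_le_power_left (Cardinal.aleph0_pos.trans_le hθinf).ne' (le_max_left _ _)
        refine h2.trans ?_
        show (2 ^ μ) ^ μ ≤ 2 ^ μ
        rw [← Cardinal.power_mul, Cardinal.mul_eq_self hμinf]
      · rw [Cardinal.mk_set]
        exact Cardinal.power_le_power_left (by norm_num) (le_max_left _ _)
    obtain ⟨b, hb⟩ := bdd hδreg hcard
    exact ⟨b, fun η hη => hb η hη⟩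
  choose Φ hΦ' using hΦ
  -- the chain
  have hsμ : (Order.succ μ).IsRegular := Cardinal.isRegular_succ hμinf
  have hsμδ : Order.succ μ ≤ δ := Order.succ_le_succ hμθ.le
  obtain ⟨s, hs, -⟩ := exists_chain (α := KK δ) (fun a b => Φ b < a ∧ b < a) (Order.succ μ)
    hsμ.aleph0_le (fun S hS => by
      have h1 : #(↥(Φ '' S ∪ S)) < δ := by
        refine lt_of_le_of_lt (mk_union_le _ _) (Cardinal.add_lt_of_lt hδreg.aleph0_le ?_ ?_)
        · exact lt_of_le_of_lt mk_image_le (hS.trans_le hsμδ)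
        · exact hS.trans_le hsμδ
      obtain ⟨a, ha⟩ := bdd hδreg h1
      exact ⟨a, fun b hb => ⟨ha _ (Or.inl ⟨b, hb, rfl⟩), ha _ (Or.inr hb)⟩⟩)
    (fun _ => hneδ.some)
  have hW : {a : KK δ | ∀ i, s i < a}.Nonempty := by
    have h1 : #(↥(Set.range s)) < δ := by
      refine lt_of_le_of_lt mk_range_le ?_
      rw [mkKK]
      exact lt_of_le_of_lt (Order.succ_le_of_lt hμθ) (Order.lt_succ θ)
    obtain ⟨a, ha⟩ := bdd hδreg h1
    exact ⟨a, fun i => ha _ ⟨i, rfl⟩⟩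
  let η := wellFounded_lt.min _ hW
  have hη : ∀ i, s i < η := wellFounded_lt.min_mem _ hW
  have hηmin : ∀ ζ, ζ < η → ∃ i, ζ ≤ s i := by
    intro ζ hζ
    by_contra hcon
    push Not at hcon
    exact wellFounded_lt.not_lt_min {a : KK δ | ∀ i, s i < a} (x := ζ) hcon hζ
  have hidx : ∀ m, ∃ i, ∀ ξ, U η m = some ξ → ξ ≤ s i := by
    intro m
    rcases hm : U η m with _ | ξ
    · obtain ⟨i⟩ := neK hsμ
      exact ⟨i, by simp⟩
    · obtain ⟨i, hi⟩ := hηmin ξ (hU1 η m ξ hm)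
      exact ⟨i, fun ξ' hξ' => by cases hξ'; exact hi⟩
  choose idx hidx using hidx
  obtain ⟨i0, hi0⟩ := bdd_range hsμ (I := N)
    (lt_of_le_of_lt (le_max_left _ _) (Order.lt_succ μ)) idx
  have h1 : η < Φ (s i0) := by
    refine hΦ' (s i0) η fun m ξ hξ => (hidx m ξ hξ).trans ?_
    exact (hs _ _ (hi0 m)).2.le
  obtain ⟨i1, hi1⟩ := noMax hsμ i0
  have h2 : Φ (s i0) < s i1 := (hs _ _ hi1).1
  exact lt_asymm (h1.trans h2) (hη i1)

end Strong

end Pool.Agent.Lib.MP_eff308_lc.T
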