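import Pool.Agent.Lib.MP_eff308_lc.T.SeqG

open Cardinal Set Filter

universe u

namespace Pool.Agent.Lib.MP_eff308_lc.T

variable {κ : Cardinal.{u}}

/-- The coinitiality of a family `T` of sets with respect to almost inclusion: the least size of
a subfamily `C` such that every member of `T` almost contains a member of `C`. -/
noncomputable def coin {X : Type u} (T : Set (Set X)) : Cardinal.{u} :=
  sInf {c | ∃ C : Set (Set X), C ⊆ T ∧ (∀ A ∈ T, ∃ B ∈ C, Almost B A) ∧ #(↥C) = c}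

theorem almost_refl (hreg : κ.IsRegular) (A : Set (KK κ)) : Almost A A := by
  unfold Almost
  rw [Set.diff_self, mkKK, mk_emptyCollection]
  exact hreg.pos

theorem almost_trans (hreg : κ.IsRegular) {A B C : Set (KK κ)} (h1 : Almost A B)
    (h2 : Almost B C) : Almost A C := by
  unfold Almost at *
  rw [mkKK] at *
  have hsub : A \ C ⊆ (A \ B) ∪ (B \ C) := by
    rintro x ⟨hA, hC⟩
    by_cases hB : x ∈ B
    · exact Or.inr ⟨hB, hC⟩
    · exact Or.inl ⟨hA, hB⟩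
  exact lt_of_le_of_lt ((mk_le_mk_of_subset hsub).trans (mk_union_le _ _))
    (Cardinal.add_lt_of_lt hreg.aleph0_le h1 h2)

theorem coin_spec (hreg : κ.IsRegular) (T : Set (Set (KK κ))) :
    ∃ C : Set (Set (KK κ)), C ⊆ T ∧ (∀ A ∈ T, ∃ B ∈ C, Almost B A) ∧ #(↥C) = coin T := by
  have h : {c | ∃ C : Set (Set (KK κ)), C ⊆ T ∧ (∀ A ∈ T, ∃ B ∈ C, Almost B A) ∧
      #(↥C) = c}.Nonempty :=
    ⟨_, T, subset_rfl, fun A hA => ⟨A, hA, almost_refl hreg A⟩, rfl⟩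
  exact csInf_mem h

theorem coin_le {T C : Set (Set (KK κ))} (h1 : C ⊆ T)
    (h2 : ∀ A ∈ T, ∃ B ∈ C, Almost B A) : coin T ≤ #(↥C) :=
  csInf_le' ⟨C, h1, h2, rfl⟩

theorem total_of_starWO {T : Set (Set (KK κ))} (hT : StarWO T) {A B : Set (KK κ)} (hA : A ∈ T)
    (hB : B ∈ T) (h : ¬ Almost B A) : Almost A B := by
  obtain ⟨C, hC, hCm⟩ := hT {A, B} (by
    intro D hD
    rcases hD with rfl | rfl
    · exact hA
    · exact hB) ⟨A, Or.inl rfl⟩
  rcases hC with rfl | rfl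
  · exact absurd (hCm B (Or.inr rfl)) h
  · exact hCm A (Or.inl rfl)

/-- reindexing of a family of coinitiality `λ > κ` by a decreasing sequence of length `λ` -/
theorem reindex (hreg : κ.IsRegular) {T : Set (Set (KK κ))} (hT : StarWO T) {lam : Cardinal.{u}}
    (hlam : coin T = lam) (hκ : κ < lam) :
    (∃ s : KK lam → Set (KK κ), (∀ i, s i ∈ T) ∧ (∀ i j, i < j → Almost (s j) (s i)) ∧
      ∀ A ∈ T, ∃ i, Almost (s i) A) ∧
    ∀ Γ : Set (KK lam), #(↥Γ) ≤ κ → ∃ a, ∀ b ∈ Γ, b ≤ a := by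
  classical
  have hinf : ℵ₀ ≤ lam := hreg.aleph0_le.trans hκ.le
  obtain ⟨C, hCT, hC, hCc⟩ := coin_spec hreg T
  have hCc' : #(↥C) = #(KK lam) := by rw [hCc, hlam, mkKK]
  obtain ⟨e⟩ : Nonempty (KK lam ≃ C) := by rw [← Cardinal.eq, hCc']
  have H : ∀ S : Set T, #(↥S) < lam → ∃ a : T, ∀ b ∈ S, Almost a.1 b.1 := by
    intro S hS
    by_contra hcon
    push Not at hcon
    have h1 : coin T ≤ #(↥(Subtype.val '' S)) := by
      refine coin_le ?_ ?_
      · rintro _ ⟨b, -, rfl⟩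
        exact b.2
      · intro A hA
        obtain ⟨b, hb, hn⟩ := hcon ⟨A, hA⟩
        exact ⟨b.1, ⟨b, hb, rfl⟩, total_of_starWO hT b.2 hA hn⟩
    have h2 := h1.trans (mk_image_le.trans le_rfl)
    rw [hlam] at h2
    exact absurd hS (not_lt.2 h2)
  obtain ⟨s, hs1, hs2⟩ := exists_chain (fun a b : T => Almost a.1 b.1) lam hinf H
    (fun i => ⟨(e i).1, hCT (e i).2⟩)
  have hcoin : ∀ A ∈ T, ∃ i, Almost (s i).1 A := by
    intro A hA
    obtain ⟨B, hB, hBA⟩ := hC A hA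
    refine ⟨e.symm ⟨B, hB⟩, ?_⟩
    have := hs2 (e.symm ⟨B, hB⟩)
    simp only [Equiv.apply_symm_apply] at this
    exact almost_trans hreg this hBA
  refine ⟨⟨fun i => (s i).1, fun i => (s i).2, fun i j hij => hs1 i j hij, hcoin⟩, ?_⟩
  intro Γ hΓ
  by_contra hcon
  push Not at hcon
  have h1 : coin T ≤ #(↥((fun i => (s i).1) '' Γ)) := by
    refine coin_le ?_ ?_
    · rintro _ ⟨b, -, rfl⟩
      exact (s b).2
    · intro A hA
      obtain ⟨i, hi⟩ := hcoin A hA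
      obtain ⟨j, hj, hij⟩ := hcon i
      exact ⟨_, ⟨j, hj, rfl⟩, almost_trans hreg (hs1 i j hij) hi⟩
  rw [hlam] at h1
  exact absurd ((h1.trans mk_image_le).trans hΓ) (not_le.2 hκ)

/-- the families of intermediate coinitiality, as sequences -/
theorem exists_short (hreg : κ.IsRegular) (hκ : κ < pNum κ) (F : Set (Set (KK κ)))
    (T : KK κ → Set (Set (KK κ))) (hT : ∀ ξ, StarWO (T ξ)) (hTF : ∀ ξ, T ξ ⊆ F)
    (μ0 : Cardinal.{u}) (hμ0 : μ0 < pNum κ)
    (hs : κ.IsStrongLimit ∨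
      {c | (∃ ξ, coin (T ξ) = c) ∧ Order.succ κ < c ∧ c < pNum κ}.Finite) :
    ∃ (M : Type u) (rank : M → KK κ) (val : M → Cardinal.{u})
      (A : ∀ m, KK κ → KK (val m) → Set (KK κ)),
      (∀ b, #{m : M // rank m < b} < κ) ∧ (Finite M ∨ κ.IsStrongLimit) ∧
      #(Σ m, KK (val m)) < pNum κ ∧ (∀ m ξ i, A m ξ i ∈ insert Set.univ F) ∧
      (∀ m ξ i j, i < j → Almost (A m ξ j) (A m ξ i)) ∧
      ∀ ξ, Order.succ κ < coin (T ξ) → coin (T ξ) ≤ μ0 →
        ∀ S ∈ T ξ, ∃ m ξ' i, Almost (A m ξ' i) S := by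
  classical
  have hneK := neK hreg
  have hpinf : ℵ₀ ≤ pNum κ := hreg.aleph0_le.trans hκ.le
  -- a common lemma
  have hseq : ∀ (v : Cardinal.{u}) (ξ : KK κ), ∃ s : KK v → Set (KK κ),
      (∀ i, s i ∈ insert Set.univ F) ∧ (∀ i j, i < j → Almost (s j) (s i)) ∧
      (coin (T ξ) = v → κ < v → ∀ A ∈ T ξ, ∃ i, Almost (s i) A) := by
    intro v ξ
    by_cases he : coin (T ξ) = v ∧ κ < v
    · obtain ⟨⟨s, hs1, hs2, hs3⟩, -⟩ := reindex hreg (hT ξ) he.1 he.2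
      exact ⟨s, fun i => Or.inr (hTF ξ (hs1 i)), hs2, fun _ _ => hs3⟩
    · exact ⟨fun _ => Set.univ, fun _ => Or.inl rfl, fun _ _ _ => almost_refl hreg _,
        fun h1 h2 => absurd ⟨h1, h2⟩ he⟩
  choose s hsF hsd hsc using hseq
  have hscard : ∀ (M : Type u) (val : M → Cardinal.{u}), #M ≤ κ → (∀ m, val m ≤ max μ0 1) →
      #(Σ m, KK (val m)) < pNum κ := by
    intro M val hM hval
    rw [mk_sigma]
    refine lt_of_le_of_lt (Cardinal.sum_le_sum _ (fun _ => max μ0 1) fun m => ?_) ?_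
    · rw [mkKK]
      exact hval m
    · rw [Cardinal.sum_const, Cardinal.lift_id, Cardinal.lift_id]
      refine Cardinal.mul_lt_of_lt hpinf (lt_of_le_of_lt hM hκ) (max_lt hμ0 ?_)
      exact lt_of_lt_of_le Cardinal.one_lt_aleph0 hpinf
  rcases hs with hsl | hfin
  · let val : KK κ → Cardinal.{u} := fun ξ => if coin (T ξ) ≤ μ0 then coin (T ξ) else 1
    refine ⟨KK κ, id, val, fun m _ i => s (val m) m i, fun b => ?_, Or.inr hsl,
      hscard _ _ mkKK.le fun m => ?_, fun m _ i => hsF _ _ _, fun m _ i j hij => hsd _ _ i j hij,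
      fun ξ h1 h2 S hS => ?_⟩
    · exact Cardinal.mk_Iio_toType_ord_lt b
    · simp only [val]
      split
      · next h => exact h.trans (le_max_left _ _)
      · exact le_max_right _ _
    · have hval : coin (T ξ) = val ξ := by simp only [val, if_pos h2]
      obtain ⟨i, hi⟩ := hsc (val ξ) ξ hval (by
        rw [← hval]
        exact (Order.lt_succ κ).trans h1) S hS
      exact ⟨ξ, ξ, i, hi⟩
  · let W : Set Cardinal.{u} := {c | (∃ ξ, coin (T ξ) = c) ∧ Order.succ κ < c ∧ c ≤ μ0}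
    have hWfin : Finite W := (hfin.subset fun v hv =>
      ⟨hv.1, hv.2.1, hv.2.2.trans_lt hμ0⟩).to_subtype
    obtain ⟨n, ⟨eW⟩⟩ := Finite.exists_equiv_fin W
    let M : Type u := ULift.{u} (Fin n)
    let val : M → Cardinal.{u} := fun m => (eW.symm m.down).1
    have hval : ∀ m, val m ∈ W := fun m => (eW.symm m.down).2
    have hMfin : Finite M := inferInstance
    have hMκ : #M < κ := lt_of_lt_of_le (Cardinal.lt_aleph0_of_finite M) hreg.aleph0_le
    refine ⟨M, fun _ => hneK.some, val, fun m ξ i => s (val m) ξ i, fun b => ?_, Or.inl hMfin,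
      hscard _ _ hMκ.le fun m => ?_, fun m ξ i => hsF _ _ _, fun m ξ i j hij => hsd _ _ i j hij,
      fun ξ h1 h2 S hS => ?_⟩
    · exact lt_of_le_of_lt (Cardinal.mk_subtype_le _) hMκ
    · exact (hval m).2.2.trans (le_max_left _ _)
    · let m : M := ⟨eW ⟨coin (T ξ), ⟨⟨ξ, rfl⟩, h1, h2⟩⟩⟩
      have hm : coin (T ξ) = val m := by simp [val, m]
      obtain ⟨i, hi⟩ := hsc (val m) ξ hm (by
        rw [← hm]
        exact (Order.lt_succ κ).trans h1) S hS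
      exact ⟨m, ξ, i, hi⟩

/-- the mixed form: the long families are given by sequences `B` -/
theorem main_mid (hreg : κ.IsRegular) (h0 : ℵ₀ < κ) (hpow : κ ^< κ = κ)
    (h : pNum κ < tNum κ) (F : Set (Set (KK κ))) (hF : SIP F)
    (D : Set (Set (KK κ))) (hD : #(↥D) ≤ Order.succ κ) (hDF : D ⊆ F)
    (T : KK κ → Set (Set (KK κ))) (hT : ∀ ξ, StarWO (T ξ)) (hTF : ∀ ξ, T ξ ⊆ F)
    (hFDT : ∀ S ∈ F, S ∈ D ∨ ∃ ξ, S ∈ T ξ)
    (μ0 : Cardinal.{u}) (hμ0 : μ0 < pNum κ)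
    (hs : κ.IsStrongLimit ∨
      {c | (∃ ξ, coin (T ξ) = c) ∧ Order.succ κ < c ∧ c < pNum κ}.Finite)
    {J : Type u} [LinearOrder J] [WellFoundedLT J] (hJ : #J < tNum κ)
    (hJb : ∀ Γ : Set J, #(↥Γ) ≤ κ → ∃ a, ∀ b ∈ Γ, b ≤ a)
    (B : KK κ → J → Set (KK κ)) (hBF : ∀ ξ a, B ξ a ∈ insert Set.univ F)
    (hB : ∀ ξ a b, a < b → Almost (B ξ b) (B ξ a))
    (hc : ∀ ξ, coin (T ξ) ≤ μ0 ∨ ∀ A ∈ T ξ, ∃ a, Almost (B ξ a) A) : HasPI F := by
  classical
  have hneK := neK hreg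
  have hκ := kappa_lt_p hreg h
  have hsp := succ_lt_p hreg h0 hpow h
  have hsinf : ℵ₀ ≤ Order.succ κ := hreg.aleph0_le.trans (Order.le_succ κ)
  choose C hCT hC hCc using fun ξ => coin_spec hreg (T ξ)
  -- the small families are moved into `D`
  let D' : Set (Set (KK κ)) := D ∪ ⋃ ξ, {A | A ∈ C ξ ∧ coin (T ξ) ≤ Order.succ κ}
  have hD' : #(↥D') ≤ Order.succ κ := by
    refine (mk_union_le _ _).trans ?_
    refine (add_le_add hD ?_).trans (Cardinal.add_eq_self hsinf).le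
    refine (Cardinal.mk_iUnion_le_sum_mk).trans ?_
    refine (Cardinal.sum_le_sum _ (fun _ : KK κ => Order.succ κ) fun ξ => ?_).trans ?_
    · by_cases hξ : coin (T ξ) ≤ Order.succ κ
      · refine (mk_le_mk_of_subset (t := C ξ) fun A hA => hA.1).trans ?_
        rw [hCc ξ]
        exact hξ
      · have : {A | A ∈ C ξ ∧ coin (T ξ) ≤ Order.succ κ} = ∅ := by
          ext A
          simp [hξ]
        rw [this, mk_emptyCollection]
        exact zero_le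
    · rw [Cardinal.sum_const, Cardinal.lift_id, Cardinal.lift_id, mkKK]
      exact (mul_le_mul' (Order.le_succ κ) le_rfl).trans (Cardinal.mul_eq_self hsinf).le
  have hD'F : D' ⊆ F := by
    rintro A (hA | hA)
    · exact hDF hA
    · obtain ⟨ξ, hξ⟩ := Set.mem_iUnion.1 hA
      exact hTF ξ (hCT ξ hξ.1)
  obtain ⟨M, rank, val, A, hM, hMs, hι, hAF, hA, hAco⟩ :=
    exists_short hreg hκ F T hT hTF μ0 hμ0 hs
  obtain ⟨P, hP, hPD, hPA, hPB⟩ := seqG hreg h0 hpow hsp h.le rank hM hMs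
    (ι := fun m => KK (val m)) hι hJ hJb F hF D' hD' hD'F A hAF hA B hBF hB
  refine ⟨P, hP.trans mkKK.symm, fun S hS => ?_⟩
  rcases hFDT S hS with hSD | ⟨ξ, hξ⟩
  · exact hPD S (Or.inl hSD)
  · rcases hc ξ with hc1 | hc2
    · rcases le_or_gt (coin (T ξ)) (Order.succ κ) with hle | hlt
      · obtain ⟨C0, hC0, hC0S⟩ := hC ξ S hξ
        exact almost_trans hreg (hPD C0 (Or.inr (Set.mem_iUnion.2 ⟨ξ, hC0, hle⟩))) hC0S
      · obtain ⟨m, ξ', i, hi⟩ := hAco ξ hlt hc1 S hξ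
        exact almost_trans hreg (hPA m ξ' i) hi
    · obtain ⟨a, ha⟩ := hc2 S hξ
      exact almost_trans hreg (hPB ξ a) ha

theorem mainG (hreg : κ.IsRegular) (h0 : ℵ₀ < κ) (hpow : κ ^< κ = κ)
    (h : pNum κ < tNum κ) (F : Set (Set (KK κ))) (hF : SIP F)
    (D : Set (Set (KK κ))) (hD : #(↥D) ≤ Order.succ κ)
    (T : KK κ → Set (Set (KK κ))) (hT : ∀ ξ, StarWO (T ξ))
    (hFDT : F = D ∪ ⋃ ξ, T ξ)
    (μ lam : Cardinal.{u}) (hμ : μ < pNum κ) (hlam : lam < tNum κ)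
    (hc : ∀ ξ, coin (T ξ) ≤ μ ∨ coin (T ξ) = lam)
    (hs : κ.IsStrongLimit ∨
      {c | (∃ ξ, coin (T ξ) = c) ∧ Order.succ κ < c ∧ c < pNum κ}.Finite) : HasPI F := by
  classical
  have hDF : D ⊆ F := by rw [hFDT]; exact Set.subset_union_left
  have hTF : ∀ ξ, T ξ ⊆ F := by
    intro ξ
    rw [hFDT]
    exact (Set.subset_iUnion T ξ).trans Set.subset_union_right
  have hcov : ∀ S ∈ F, S ∈ D ∨ ∃ ξ, S ∈ T ξ := by
    intro S hS
    rw [hFDT] at hS
    rcases hS with hS | hS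
    · exact Or.inl hS
    · exact Or.inr (Set.mem_iUnion.1 hS)
  have hκ := kappa_lt_p hreg h
  have hpinf : ℵ₀ ≤ pNum κ := hreg.aleph0_le.trans hκ.le
  by_cases hcase : (∃ ξ, coin (T ξ) = lam) ∧ pNum κ ≤ lam
  · obtain ⟨⟨ξ0, hξ0⟩, hle⟩ := hcase
    have hκl : κ < lam := hκ.trans_le hle
    have hdir := (reindex hreg (hT ξ0) hξ0 hκl).2
    have hBex : ∀ ξ, ∃ s : KK lam → Set (KK κ), (∀ i, s i ∈ insert Set.univ F) ∧
        (∀ i j, i < j → Almost (s j) (s i)) ∧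
        (coin (T ξ) = lam → ∀ A ∈ T ξ, ∃ i, Almost (s i) A) := by
      intro ξ
      by_cases he : coin (T ξ) = lam
      · obtain ⟨⟨s, hs1, hs2, hs3⟩, -⟩ := reindex hreg (hT ξ) he hκl
        exact ⟨s, fun i => Or.inr (hTF ξ (hs1 i)), hs2, fun _ => hs3⟩
      · exact ⟨fun _ => Set.univ, fun _ => Or.inl rfl, fun _ _ _ => almost_refl hreg _,
          fun he' => absurd he' he⟩
    choose B hBF hB hBco using hBex
    exact main_mid hreg h0 hpow h F hF D hD hDF T hT hTF hcov μ hμ hs (J := KK lam)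
      (mkKK.trans_lt hlam) hdir B hBF hB
      (fun ξ => (hc ξ).imp id fun he => hBco ξ he)
  · have hall : ∃ μ', μ' < pNum κ ∧ ∀ ξ, coin (T ξ) ≤ μ' := by
      rcases lt_or_ge lam (pNum κ) with hlt | hge
      · exact ⟨max μ lam, max_lt hμ hlt, fun ξ => (hc ξ).elim (fun h => h.trans (le_max_left _ _))
          (fun h => h.le.trans (le_max_right _ _))⟩
      · refine ⟨μ, hμ, fun ξ => (hc ξ).elim id fun he => ?_⟩
        exact absurd ⟨⟨ξ, he⟩, hge⟩ hcase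
    obtain ⟨μ', hμ', hall⟩ := hall
    exact main_mid hreg h0 hpow h F hF D hD hDF T hT hTF hcov μ' hμ' hs (J := PUnit.{u+1})
      (by
        rw [Cardinal.mk_punit]
        exact lt_of_lt_of_le Cardinal.one_lt_aleph0 (h0.le.trans (hκ.trans h).le))
      (fun Γ _ => ⟨PUnit.unit, fun _ _ => le_rfl⟩) (fun _ _ => Set.univ)
      (fun _ _ => Or.inl rfl) (fun _ _ _ _ => almost_refl hreg _)
      (fun ξ => Or.inl (hall ξ))

end Pool.Agent.Lib.MP_eff308_lc.T
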