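import Pool.Agent.Lib.MP_eff308_lc.T.Dick

open Cardinal Set Filter

universe u

namespace Pool.Agent.Lib.MP_eff308_lc.T

variable {κ : Cardinal.{u}}

theorem card_prod_eq (hreg : κ.IsRegular) {Z : Type u} [Nonempty Z] (h : #Z ≤ κ) :
    #(KK κ × Z) = κ := by
  rw [mk_prod, Cardinal.lift_id, Cardinal.lift_id, mkKK]
  exact Cardinal.mul_eq_left hreg.aleph0_le h (mk_ne_zero Z)

theorem card_fun_le (hpow : κ ^< κ = κ) {Y : Type u} (hY : #Y < κ) : #(Y → KK κ) ≤ κ := by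
  have h1 := Cardinal.le_powerlt κ hY
  rw [hpow] at h1
  rw [← Cardinal.power_def, mkKK] at *
  exact h1

section

variable {N : Type u} (rank : N → KK κ)

/-- codes for rank functions -/
abbrev ZA : Type u := Σ b : KK κ, ({m : N // rank m < b} × Set.Iio b → KK κ)

/-- codes for partial functions on `N` -/
abbrev ZB : Type u := Σ b : KK κ, ({m : N // rank m < b} → KK κ)

variable {rank}

theorem card_ZA (hreg : κ.IsRegular) (hpow : κ ^< κ = κ)
    (hN : ∀ b, #{m : N // rank m < b} < κ) : #(KK κ × ZA rank) = κ := by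
  have hne := neK hreg
  have hz : Nonempty (ZA rank) := ⟨⟨hne.some, fun _ => hne.some⟩⟩
  refine card_prod_eq hreg ?_
  rw [mk_sigma]
  refine (Cardinal.sum_le_sum _ (fun _ : KK κ => κ) fun b => ?_).trans ?_
  · refine card_fun_le hpow ?_
    rw [mk_prod, Cardinal.lift_id, Cardinal.lift_id]
    exact Cardinal.mul_lt_of_lt hreg.aleph0_le (hN b) (Cardinal.mk_Iio_toType_ord_lt b)
  · rw [Cardinal.sum_const, Cardinal.lift_id, Cardinal.lift_id, mkKK]
    exact (Cardinal.mul_eq_self hreg.aleph0_le).le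

theorem card_ZB (hreg : κ.IsRegular) (hpow : κ ^< κ = κ)
    (hN : ∀ b, #{m : N // rank m < b} < κ) : #(KK κ × ZB rank) = κ := by
  have hne := neK hreg
  have hz : Nonempty (ZB rank) := ⟨⟨hne.some, fun _ => hne.some⟩⟩
  refine card_prod_eq hreg ?_
  rw [mk_sigma]
  refine (Cardinal.sum_le_sum _ (fun _ : KK κ => κ) fun b => card_fun_le hpow (hN b)).trans ?_
  rw [Cardinal.sum_const, Cardinal.lift_id, Cardinal.lift_id, mkKK]
  exact (Cardinal.mul_eq_self hreg.aleph0_le).le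

/-- the rank function coded by `z` -/
noncomputable def rk (hne : Nonempty (KK κ)) (z : ZA rank) (m : N) (y : KK κ) : KK κ := by
  classical
  exact if h : rank m < z.1 ∧ y < z.1 then z.2 (⟨m, h.1⟩, ⟨y, h.2⟩) else hne.some

/-- the function coded by `z` -/
noncomputable def dec (hne : Nonempty (KK κ)) (z : ZB rank) (m : N) : KK κ := by
  classical
  exact if h : rank m < z.1 then z.2 ⟨m, h⟩ else hne.some

end

theorem exists_strictMono_small {ι : Type u} [LinearOrder ι] [WellFoundedLT ι]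
    (hreg : κ.IsRegular) (Γ : Set ι) (hΓ : #(↥Γ) < κ) :
    ∃ φ : ι → KK κ, ∀ i ∈ Γ, ∀ j ∈ Γ, i < j → φ i < φ j := by
  classical
  have hne := neK hreg
  have h1 : Ordinal.type ((· < ·) : Γ → Γ → Prop) <
      Ordinal.type ((· < ·) : KK κ → KK κ → Prop) := by
    rw [Ordinal.type_toType, Cardinal.lt_ord, Ordinal.card_type]
    exact hΓ
  obtain ⟨f⟩ := Ordinal.type_lt_iff.1 h1
  refine ⟨fun i => if h : i ∈ Γ then f ⟨i, h⟩ else hne.some, fun i hi j hj hij => ?_⟩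
  simp only [dif_pos hi, dif_pos hj]
  exact f.map_rel_iff.2 (show (⟨i, hi⟩ : Γ) < ⟨j, hj⟩ from hij)

/-- ranks for a small subfamily of a decreasing family of sets, over a small set `V` -/
theorem exists_rank {ι : Type u} [LinearOrder ι] [WellFoundedLT ι] (hreg : κ.IsRegular)
    (Γ : Set ι) (hΓ : #(↥Γ) < κ) (V : Set (KK κ)) (R : ι → Set (KK κ))
    (hR : ∀ i ∈ Γ, ∀ j ∈ Γ, i < j → ∀ y ∈ V, y ∈ R j → y ∈ R i) :
    ∃ ρ : KK κ → KK κ, ∀ i ∈ Γ, ∃ c, ∀ y ∈ V, (y ∈ R i ↔ c < ρ y) := by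
  classical
  obtain ⟨φ, hφ⟩ := exists_strictMono_small hreg Γ hΓ
  have hΓφ : #(↥(φ '' Γ)) < κ := lt_of_le_of_lt mk_image_le hΓ
  obtain ⟨β, hβ⟩ := bdd hreg hΓφ
  let W : KK κ → Set ι := fun y => {i | i ∈ Γ ∧ y ∉ R i}
  let ρ : KK κ → KK κ := fun y => if h : (W y).Nonempty then φ (wellFounded_lt.min (W y) h) else β
  refine ⟨ρ, fun i hi => ⟨φ i, fun y hy => ?_⟩⟩
  constructor
  · intro hyi
    by_cases h : (W y).Nonempty
    · have hρ : ρ y = φ (wellFounded_lt.min (W y) h) := dif_pos h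
      have hm := wellFounded_lt.min_mem (W y) h
      rw [hρ]
      refine hφ i hi _ hm.1 ?_
      by_contra hlt
      rcases (not_lt.1 hlt).eq_or_lt with he | hl
      · rw [← he] at hyi
        exact hm.2 hyi
      · exact hm.2 (hR _ hm.1 i hi hl y hy hyi)
    · have hρ : ρ y = β := dif_neg h
      rw [hρ]
      exact hβ _ ⟨i, hi, rfl⟩
  · intro hlt
    by_contra hyi
    have h : (W y).Nonempty := ⟨i, hi, hyi⟩
    have hρ : ρ y = φ (wellFounded_lt.min (W y) h) := dif_pos h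
    have hm := wellFounded_lt.min_mem (W y) h
    have hle : ¬ i < wellFounded_lt.min (W y) h := wellFounded_lt.not_lt_min (W y) ⟨hi, hyi⟩
    rw [hρ] at hlt
    rcases (not_lt.1 hle).eq_or_lt with he | hl
    · rw [he] at hlt
      exact lt_irrefl _ hlt
    · exact lt_asymm hlt (hφ _ hm.1 i hi hl)

theorem step_rank (hreg : κ.IsRegular) (hpow : κ ^< κ = κ) (hp : κ < pNum κ)
    {N : Type u} (rank : N → KK κ) (hN : ∀ b, #{m : N // rank m < b} < κ)
    {ι : N → Type u} [∀ m, LinearOrder (ι m)] [∀ m, WellFoundedLT (ι m)]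
    (hι : #(Σ m, ι m) < pNum κ)
    (E : Set (KK κ)) (hE : ∃ᶠ x in atTop, x ∈ E)
    (V : KK κ → Set (KK κ)) (hV : ∀ x, #(↥(V x)) < κ)
    (R : ∀ m, ι m → KK κ → Set (KK κ))
    (hR : ∀ m i j, i < j → ∀ᶠ x in atTop, x ∈ E → ∀ y ∈ V x, y ∈ R m j x → y ∈ R m i x) :
    ∃ (X : Set (KK κ)) (r : KK κ → N → KK κ → KK κ), (∃ᶠ x in atTop, x ∈ X) ∧ X ⊆ E ∧
      ∀ m i, ∀ᶠ x in atTop, x ∈ X → ∃ c, ∀ y ∈ V x, (y ∈ R m i x ↔ c < r x m y) := by
  classical
  have hneK := neK hreg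
  have hpinf : ℵ₀ ≤ pNum κ := hreg.aleph0_le.trans hp.le
  let P : Option (Σ m, ι m) → KK κ → ZA rank → Prop := fun i x z =>
    match i with
    | none => x ∈ E
    | some mi => ∃ c, ∀ y ∈ V x, (y ∈ R mi.1 mi.2 x ↔ c < rk hneK z mi.1 y)
  have hcard : #(Option (Σ m, ι m)) < pNum κ := by
    rw [Cardinal.mk_option]
    exact Cardinal.add_lt_of_lt hpinf hι (lt_of_lt_of_le Cardinal.one_lt_aleph0 hpinf)
  have hSIP : ∀ Γ : Set (Option (Σ m, ι m)), #(↥Γ) < κ →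
      ∃ᶠ x in atTop, ∃ z, ∀ i ∈ Γ, P i x z := by
    intro Γ hΓ
    let G : ∀ m, Set (ι m) := fun m => {i | some ⟨m, i⟩ ∈ Γ}
    have hG : ∀ m, #(↥(G m)) < κ := by
      intro m
      refine lt_of_le_of_lt (Cardinal.mk_le_of_injective
        (f := fun i : G m => (⟨some ⟨m, i.1⟩, i.2⟩ : Γ)) ?_) hΓ
      intro i j hij
      have h1 : (some ⟨m, i.1⟩ : Option (Σ m, ι m)) = some ⟨m, j.1⟩ := congrArg Subtype.val hij
      have h2 := Option.some.inj h1
      have h3 := eq_of_heq (Sigma.mk.inj h2).2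
      exact Subtype.ext h3
    let MΓ : Set N := {m | ∃ i, some ⟨m, i⟩ ∈ Γ}
    have hMΓ : #(↥MΓ) < κ := by
      have hch : ∀ m : MΓ, ∃ i, some ⟨m.1, i⟩ ∈ Γ := fun m => m.2
      choose ch hch using hch
      refine lt_of_le_of_lt (Cardinal.mk_le_of_injective
        (f := fun m : MΓ => (⟨some ⟨m.1, ch m⟩, hch m⟩ : Γ)) ?_) hΓ
      intro m m' hmm
      have h1 : (some ⟨m.1, ch m⟩ : Option (Σ m, ι m)) = some ⟨m'.1, ch m'⟩ :=
        congrArg Subtype.val hmm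
      have h2 := Option.some.inj h1
      exact Subtype.ext (Sigma.mk.inj h2).1
    have hall : ∀ᶠ x in atTop, ∀ m ∈ MΓ, ∀ i ∈ G m, ∀ j ∈ G m, x ∈ E → i < j →
        ∀ y ∈ V x, y ∈ R m j x → y ∈ R m i x := by
      refine ev_all_mem hreg hMΓ fun m _ => ev_all_mem hreg (hG m) fun i _ =>
        ev_all_mem hreg (hG m) fun j _ => ?_
      by_cases hij : i < j
      · filter_upwards [hR m i j hij] with x hx hxE _
        exact hx hxE
      · exact Filter.Eventually.of_forall fun x _ h => absurd h hij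
    refine (hE.and_eventually hall).mono ?_
    rintro x ⟨hxE, hx⟩
    obtain ⟨b1, hb1⟩ := bdd hreg (hV x)
    obtain ⟨b2, hb2⟩ := bdd hreg (lt_of_le_of_lt (mk_image_le (f := rank) (s := MΓ)) hMΓ)
    let b := max b1 b2
    have hrk : ∀ m, ∃ ρ : KK κ → KK κ, ∀ i ∈ G m, ∃ c, ∀ y ∈ V x, (y ∈ R m i x ↔ c < ρ y) :=
      fun m => exists_rank hreg (G m) (hG m) (V x) (fun i => R m i x)
        fun i hi j hj hij y hy => hx m ⟨i, hi⟩ i hi j hj hxE hij y hy
    choose ρ hρ using hrk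
    let z : ZA rank := ⟨b, fun q => ρ q.1.1 q.2.1⟩
    have hz : ∀ m ∈ MΓ, ∀ y ∈ V x, rk hneK z m y = ρ m y := by
      intro m hm y hy
      have h1 : rank m < z.1 := lt_of_lt_of_le (hb2 _ ⟨m, hm, rfl⟩) (le_max_right _ _)
      have h2 : y < z.1 := lt_of_lt_of_le (hb1 y hy) (le_max_left _ _)
      exact dif_pos ⟨h1, h2⟩
    refine ⟨z, fun i hi => ?_⟩
    rcases i with _ | ⟨m, i⟩
    · exact hxE
    · obtain ⟨c, hc⟩ := hρ m i hi
      exact ⟨c, fun y hy => by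
        show y ∈ R m i x ↔ c < rk hneK z m y
        rw [hz m ⟨i, hi⟩ y hy]
        exact hc y hy⟩
  obtain ⟨X, z, hX, hXP⟩ := use_p hreg (card_ZA hreg hpow hN) hp hcard P hSIP
  refine ⟨X ∩ E, fun x m y => rk hneK (z x) m y, ?_, Set.inter_subset_right, fun m i => ?_⟩
  · exact (hX.and_eventually (hXP none)).mono fun x hx => ⟨hx.1, hx.2 hx.1⟩
  · filter_upwards [hXP (some ⟨m, i⟩)] with x hx hxX
    exact hx hxX.1

/-- stabilisation of a decreasing net of lower sets -/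
theorem stab_exists (hreg : κ.IsRegular) {N : Type u} (hDP : DP κ N)
    {J : Type u} [LinearOrder J] (hJb : ∀ Γ : Set J, #(↥Γ) < κ → ∃ a, ∀ b ∈ Γ, b ≤ a)
    (X0 : Set (KK κ)) (hX0 : ∃ᶠ x in atTop, x ∈ X0)
    (L : J → KK κ → Set (N → KK κ))
    (hlow : ∀ a x ρ σ, ρ ∈ L a x → σ ≤ ρ → σ ∈ L a x)
    (hdec : ∀ a b, a ≤ b → ∀ᶠ x in atTop, x ∈ X0 → L b x ⊆ L a x) :
    ∃ a0, ∀ b, a0 ≤ b → ∃ᶠ x in atTop, x ∈ X0 ∧ L b x = L a0 x := by
  classical
  by_contra hcon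
  push Not at hcon
  choose nx hnx1 hnx2 using hcon
  obtain ⟨aJ, -⟩ := hJb ∅ (by simpa using hreg.pos)
  obtain ⟨δ, hδreg, hδ, hDP⟩ := hDP
  obtain ⟨s, hs, -⟩ := exists_chain (α := J) (fun a b => nx b ≤ a) δ hδreg.aleph0_le
    (fun S hS => by
      obtain ⟨a, ha⟩ := hJb (nx '' S) (lt_of_le_of_lt mk_image_le (hS.trans hδ))
      exact ⟨a, fun b hb => ha _ ⟨b, hb, rfl⟩⟩) (fun _ => aJ)
  have hsm : ∀ i j, i < j → s i ≤ s j := fun i j hij => (hnx1 _).trans (hs i j hij)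
  have hKδ : #(KK δ) < κ := by rw [mkKK]; exact hδ
  have hev : ∀ᶠ x in atTop, ∀ i j : KK δ, x ∈ X0 → i < j →
      L (s j) x ⊆ L (s i) x ∧ L (s j) x ≠ L (s i) x := by
    refine ev_all hreg hKδ fun i => ev_all hreg hKδ fun j => ?_
    by_cases hij : i < j
    · filter_upwards [hnx2 (s i), hdec (s i) (nx (s i)) (hnx1 _),
        hdec (nx (s i)) (s j) (hs i j hij)] with x h1 h2 h3 hx _
      refine ⟨(h3 hx).trans (h2 hx), fun he => h1 hx (Set.Subset.antisymm (h2 hx) ?_)⟩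
      rw [← he]
      exact h3 hx
    · exact Filter.Eventually.of_forall fun x _ h => absurd h hij
  obtain ⟨x, hx, hev⟩ := (hX0.and_eventually hev).exists
  obtain ⟨i, j, hij, he⟩ := hDP (fun i => L (s i) x) (fun i ρ σ => hlow (s i) x ρ σ)
    (fun i j hij => by
      rcases hij.eq_or_lt with rfl | hlt
      · exact subset_rfl
      · exact (hev i j hx hlt).1)
  exact (hev i j hx hij).2 he.symm

end Pool.Agent.Lib.MP_eff308_lc.T
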