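import Pool.Agent.Lib.MP_eff308_lc.T.CoreG

open Cardinal Set Filter

universe u

namespace Pool.Agent.Lib.MP_eff308_lc.T

variable {κ : Cardinal.{u}}

theorem core2G (hreg : κ.IsRegular) (h0 : ℵ₀ < κ) (hpow : κ ^< κ = κ) (hp : κ < pNum κ)
    (hpt : pNum κ ≤ tNum κ)
    {N : Type u} (rank : N → KK κ) (hN : ∀ b, #{m : N // rank m < b} < κ)
    (hDP : ∀ b, DP κ {m : N // rank m < b})
    {ι : N → Type u} [∀ m, LinearOrder (ι m)] [∀ m, WellFoundedLT (ι m)]
    (hι : #(Σ m, ι m) < pNum κ)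
    {J : Type u} [LinearOrder J] [WellFoundedLT J] (hJ : #J < tNum κ)
    (hJb : ∀ Γ : Set J, #(↥Γ) ≤ κ → ∃ a, ∀ b ∈ Γ, b ≤ a)
    (R : ∀ m, ι m → KK κ → Set (KK κ)) (B : J → KK κ → Set (KK κ))
    (hR : ∀ m i j, i < j → ∃ φ : KK κ → KK κ, ∀ x, (∀ z, z < x → φ z < x) →
      ∀ y, x ≤ y → y ∈ R m j x → y ∈ R m i x)
    (hB : ∀ a b, a < b → ∃ φ : KK κ → KK κ, ∀ x, (∀ z, z < x → φ z < x) →
      ∀ y, x ≤ y → y ∈ B b x → y ∈ B a x)
    (A : J → Set (KK κ)) (hA : ∀ a, #(↥(A a)) = κ)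
    (hAB : ∀ a, ∃ φ : KK κ → KK κ, ∀ x, (∀ z, z < x → φ z < x) →
      ∀ y ∈ A a, x ≤ y → y ∈ B a x)
    (hAR : ∀ a m i, ∃ φ : KK κ → KK κ, ∀ x, (∀ z, z < x → φ z < x) →
      ∀ y ∈ A a, x ≤ y → y ∈ R m i x) :
    ∃ (X : Set (KK κ)) (v f : KK κ → KK κ), (∃ᶠ x in atTop, x ∈ X) ∧
      (∀ x ∈ X, x ≤ v x ∧ v x ≤ f x) ∧
      (∀ m i, ∀ᶠ x in atTop, x ∈ X → f x ∈ R m i (v x)) ∧
      (∀ a, ∀ᶠ x in atTop, x ∈ X → f x ∈ B a (v x)) := by
  classical
  have hneK := neK hreg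
  have ht : ℵ₀ < tNum κ := h0.trans (hp.trans_le hpt)
  have hR' : ∀ m i j, ∃ φ : KK κ → KK κ, i < j → ∀ x, (∀ z, z < x → φ z < x) →
      ∀ y, x ≤ y → y ∈ R m j x → y ∈ R m i x := by
    intro m i j
    by_cases hij : i < j
    · obtain ⟨φ, hφ⟩ := hR m i j hij
      exact ⟨φ, fun _ => hφ⟩
    · exact ⟨id, fun h => absurd h hij⟩
  have hB' : ∀ a b, ∃ φ : KK κ → KK κ, a < b → ∀ x, (∀ z, z < x → φ z < x) →
      ∀ y, x ≤ y → y ∈ B b x → y ∈ B a x := by
    intro i j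
    by_cases hij : i < j
    · obtain ⟨φ, hφ⟩ := hB i j hij
      exact ⟨φ, fun _ => hφ⟩
    · exact ⟨id, fun h => absurd h hij⟩
  choose φR hφR using hR'
  choose φB hφB using hB'
  choose φAB hφAB using hAB
  choose φAR hφAR using hAR
  have hι' : #(Σ m, ι m) < tNum κ := hι.trans_le hpt
  have hpair : #(Σ m, ι m × ι m) < tNum κ := by
    refine lt_of_le_of_lt (Cardinal.mk_le_of_injective
      (f := fun q : (Σ m, ι m × ι m) => ((⟨q.1, q.2.1⟩, ⟨q.1, q.2.2⟩) :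
        (Σ m, ι m) × (Σ m, ι m))) ?_) ?_
    · rintro ⟨m, i, j⟩ ⟨m', i', j'⟩ h
      have h1 := congrArg Prod.fst h
      have h2 := congrArg Prod.snd h
      simp only at h1 h2
      obtain ⟨rfl, h3⟩ := Sigma.mk.inj h1
      have h4 := (Sigma.mk.inj h2).2
      rw [eq_of_heq h3, eq_of_heq h4]
    · rw [mk_prod, Cardinal.lift_id]
      exact Cardinal.mul_lt_of_lt ht.le hι' hι'
  have hcard : #((Σ m, ι m × ι m) ⊕ ((J × J) ⊕ (J ⊕ (J × Σ m, ι m)))) < tNum κ := by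
    rw [← Cardinal.add_def, ← Cardinal.add_def, ← Cardinal.add_def]
    refine Cardinal.add_lt_of_lt ht.le hpair (Cardinal.add_lt_of_lt ht.le ?_
      (Cardinal.add_lt_of_lt ht.le hJ ?_))
    · rw [mk_prod, Cardinal.lift_id]
      exact Cardinal.mul_lt_of_lt ht.le hJ hJ
    · rw [mk_prod, Cardinal.lift_id, Cardinal.lift_id]
      exact Cardinal.mul_lt_of_lt ht.le hJ hι'
  obtain ⟨E, hE, hEc⟩ := exists_common_closed hreg h0 hcard
    (fun n => match n with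
      | Sum.inl q => φR q.1 q.2.1 q.2.2
      | Sum.inr (Sum.inl q) => φB q.1 q.2
      | Sum.inr (Sum.inr (Sum.inl a)) => φAB a
      | Sum.inr (Sum.inr (Sum.inr q)) => φAR q.1 q.2.1 q.2.2)
  have hAex : ∀ a x, ∃ y, x ≤ y ∧ y ∈ A a := fun a x => by
    obtain ⟨y, hy, hyA⟩ := (Filter.frequently_atTop.1 (freq_of_card hreg (hA a))) x
    exact ⟨y, hy, hyA⟩
  choose w hw1 hw2 using hAex
  obtain ⟨g, hg⟩ := exists_dom hreg h0 hJ (fun a x => w a x)
  obtain ⟨X, v, f, hX, hXV, hXR, hXB⟩ := coreG hreg h0 hpow hp rank hN hDP hι hJ hJb E hE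
    (fun x => {y | x ≤ y ∧ y < g x}) (fun x => small_of_bdd (b := g x) fun s hs => hs.2) R B
    (fun m i j hij => by
      filter_upwards [hEc (Sum.inl ⟨m, i, j⟩)] with x hx hxE y hy hyR
      exact hφR m i j hij x (hx hxE) y hy.1 hyR)
    (fun i j hij => by
      filter_upwards [hEc (Sum.inr (Sum.inl ⟨i, j⟩))] with x hx hxE y hy hyR
      exact hφB i j hij x (hx hxE) y hy.1 hyR)
    (fun a => by
      refine ⟨w a, ?_, fun m i => ?_⟩
      · filter_upwards [hg a, hEc (Sum.inr (Sum.inr (Sum.inl a)))] with x h1 h2 hxE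
        exact ⟨⟨hw1 a x, h1⟩, hφAB a x (h2 hxE) _ (hw2 a x) (hw1 a x)⟩
      · filter_upwards [hEc (Sum.inr (Sum.inr (Sum.inr ⟨a, m, i⟩)))] with x h2 hxE
        exact hφAR a m i x (h2 hxE) _ (hw2 a x) (hw1 a x))
  exact ⟨X, v, f, hX, fun x hx => ⟨(hXV x hx).1, (hXV x hx).2.1⟩, hXR, hXB⟩

/-- enumeration of a family by a type, with `univ` as a default -/
theorem exists_enum {W : Type u} [Nonempty W] (D : Set (Set (KK κ))) (hD : #(↥D) ≤ #W) :
    ∃ d : W → Set (KK κ), (∀ w, d w ∈ insert Set.univ D) ∧ ∀ a ∈ D, ∃ w, d w = a := by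
  classical
  obtain ⟨f⟩ : Nonempty (D ↪ W) := hD
  refine ⟨fun w => if h : ∃ a : D, f a = w then h.choose.1 else Set.univ, fun w => ?_,
    fun a ha => ?_⟩
  · by_cases h : ∃ a : D, f a = w
    · simp only [dif_pos h]
      exact Or.inr h.choose.2
    · simp only [dif_neg h]
      exact Or.inl rfl
  · have h : ∃ b : D, f b = f ⟨a, ha⟩ := ⟨⟨a, ha⟩, rfl⟩
    refine ⟨f ⟨a, ha⟩, ?_⟩
    simp only [dif_pos h]
    exact congrArg Subtype.val (f.injective h.choose_spec)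

theorem exists_onto (hreg : κ.IsRegular) (j : KK (Order.succ κ)) :
    ∃ e : KK κ → KK (Order.succ κ), (∀ n, e n ≤ j) ∧ ∀ i, i ≤ j → ∃ n, e n = i := by
  classical
  have hneK := neK hreg
  have h1 : #(↥(Set.Iic j)) ≤ κ := by
    have h2 : #(↥(Set.Iio j)) < Order.succ κ := Cardinal.mk_Iio_toType_ord_lt j
    have h3 : #(↥(Set.Iio j)) ≤ κ := Order.lt_succ_iff.1 h2
    have h4 : Set.Iic j = insert j (Set.Iio j) := Set.Iio_insert.symm
    rw [h4]
    refine (Cardinal.mk_insert_le).trans ?_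
    exact (add_le_add h3 (le_of_lt (lt_of_lt_of_le Cardinal.one_lt_aleph0 hreg.aleph0_le))).trans
      (Cardinal.add_eq_self hreg.aleph0_le).le
  obtain ⟨f⟩ : Nonempty (Set.Iic j ↪ KK κ) := h1.trans_eq (mkKK (κ := κ)).symm
  refine ⟨fun n => if h : ∃ a : Set.Iic j, f a = n then h.choose.1 else j, fun n => ?_,
    fun i hi => ?_⟩
  · by_cases h : ∃ a : Set.Iic j, f a = n
    · simp only [dif_pos h]
      exact h.choose.2
    · simp only [dif_neg h]
      exact le_rfl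
  · have h : ∃ b : Set.Iic j, f b = f ⟨i, hi⟩ := ⟨⟨i, hi⟩, rfl⟩
    refine ⟨f ⟨i, hi⟩, ?_⟩
    simp only [dif_pos h]
    exact congrArg Subtype.val (f.injective h.choose_spec)

theorem exists_e (hreg : κ.IsRegular) :
    ∃ e : KK (Order.succ κ) → KK κ → KK (Order.succ κ), (∀ j n, e j n ≤ j) ∧
      ∀ j i, i ≤ j → ∃ n, e j n = i := by
  choose e he1 he2 using exists_onto hreg
  exact ⟨e, he1, he2⟩

theorem sip_insert_univ {X : Type u} {F : Set (Set X)} (hF : SIP F) :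
    SIP (insert Set.univ F) := by
  intro G hG hlt
  have h1 := hF (G ∩ F) Set.inter_subset_right
    (lt_of_le_of_lt (mk_le_mk_of_subset Set.inter_subset_left) hlt)
  have h2 : ⋂₀ G = ⋂₀ (G ∩ F) := by
    ext x
    simp only [Set.mem_sInter]
    constructor
    · intro h B hB
      exact h B hB.1
    · intro h B hB
      rcases hG hB with rfl | hBF
      · trivial
      · exact h B ⟨hB, hBF⟩
  rw [h2, h1]

theorem sip_mono {X : Type u} {F G : Set (Set X)} (h : F ⊆ G) (hG : SIP G) : SIP F :=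
  fun H hH hlt => hG H (hH.trans h) hlt

/-- the form in which SIP is used -/
theorem sip_use (hreg : κ.IsRegular) {F : Set (Set (KK κ))} (hF : SIP F) {I : Type u} (hI : #I < κ)
    (S : I → Set (KK κ)) (hS : ∀ i, S i ∈ F) (x : KK κ) : ∃ y, x ≤ y ∧ ∀ i, y ∈ S i := by
  have hneK := neK hreg
  have h1 := hF (Set.range S) (by rintro _ ⟨i, rfl⟩; exact hS i)
    (by rw [mkKK]; exact lt_of_le_of_lt mk_range_le hI)
  rw [mkKK] at h1
  have h2 := freq_of_card hreg h1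
  obtain ⟨y, hy, hyS⟩ := (Filter.frequently_atTop.1 h2) x
  exact ⟨y, hy, fun i => hyS _ ⟨i, rfl⟩⟩

/-- a selector with `x ≤ f x` on an unbounded set gives a set of size `κ` -/
theorem pi_of_selector (hreg : κ.IsRegular) {X : Set (KK κ)} {f : KK κ → KK κ}
    (hX : ∃ᶠ x in atTop, x ∈ X) (hf : ∀ x ∈ X, x ≤ f x) :
    #(↥(f '' X)) = κ ∧ ∀ S : Set (KK κ), (∀ᶠ x in atTop, x ∈ X → f x ∈ S) →
      Almost (f '' X) S := by
  have hneK := neK hreg
  constructor
  · apply card_of_freq hreg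
    rw [Filter.frequently_atTop]
    intro b
    obtain ⟨x, hx, hxX⟩ := (Filter.frequently_atTop.1 hX) b
    exact ⟨f x, hx.trans (hf x hxX), x, hxX, rfl⟩
  · intro S hS
    unfold Almost
    rw [mkKK]
    have h1 : #(↥{x | x ∈ X ∧ f x ∉ S}) < κ := by
      apply small_of_ev hreg
      filter_upwards [hS] with x hx h
      exact h.2 (hx h.1)
    refine lt_of_le_of_lt (mk_le_mk_of_subset ?_) (lt_of_le_of_lt (mk_image_le (f := f)) h1)
    rintro y ⟨⟨x, hx, rfl⟩, hy⟩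
    exact ⟨x, ⟨hx, hy⟩, rfl⟩

theorem almost_bdd (hreg : κ.IsRegular) {A B : Set (KK κ)} (h : Almost A B) :
    ∃ b, ∀ y, y ∈ A → b ≤ y → y ∈ B := by
  unfold Almost at h
  rw [mkKK] at h
  obtain ⟨b, hb⟩ := bdd hreg h
  refine ⟨b, fun y hy hby => ?_⟩
  by_contra hyB
  exact absurd (hb y ⟨hy, hyB⟩) (not_lt.2 hby)

/-- If `p < t` then `p` is attained. -/
theorem exists_witness (h : pNum κ < tNum κ) :
    ∃ F : Set (Set (KK κ)), SIP F ∧ ¬ HasPI F ∧ #(↥F) = pNum κ := by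
  have h1 : {c | ∃ T : Set (Set (KK κ)), (∀ B ∈ T, #(↥B) = κ) ∧ SIP T ∧ StarWO T ∧ ¬ HasPI T ∧
    #(↥T) = c}.Nonempty := by
    rw [Set.nonempty_iff_ne_empty]
    intro he
    have : tNum κ = 0 := by
      unfold tNum
      rw [he]
      exact Cardinal.sInf_empty
    rw [this] at h
    exact not_lt_bot h
  obtain ⟨c, T, hT1, hT2, -, hT3, hT4⟩ := h1
  have h2 : {c | ∃ F : Set (Set (KK κ)), (∀ B ∈ F, #(↥B) = κ) ∧ SIP F ∧ ¬ HasPI F ∧
      #(↥F) = c}.Nonempty := ⟨c, T, hT1, hT2, hT3, hT4⟩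
  obtain ⟨F, -, hF1, hF2, hF3⟩ := csInf_mem h2
  exact ⟨F, hF1, hF2, hF3⟩

/-- `κ < p(κ)` -/
theorem kappa_lt_p (hreg : κ.IsRegular) (h : pNum κ < tNum κ) : κ < pNum κ := by
  classical
  have hneK := neK hreg
  obtain ⟨F, hF1, hF2, hF3⟩ := exists_witness h
  by_contra hle
  rw [← hF3] at hle
  obtain ⟨d, hd1, hd2⟩ := exists_enum (W := KK κ) F ((not_lt.1 hle).trans mkKK.ge)
  have hF' := sip_insert_univ hF1
  have hex : ∀ x : KK κ, ∃ y, x ≤ y ∧ ∀ n : Set.Iio x, y ∈ d n.1 := fun x =>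
    sip_use hreg hF' (Cardinal.mk_Iio_toType_ord_lt x) (fun n : Set.Iio x => d n.1)
      (fun n => hd1 n.1) x
  choose f hf1 hf2 using hex
  have hX : ∃ᶠ x in (atTop : Filter (KK κ)), x ∈ (Set.univ : Set (KK κ)) := by
    have := atTop_neBot hreg
    simp [Filter.frequently_true_iff_neBot, this]
  obtain ⟨h1, h2⟩ := pi_of_selector hreg (f := f) hX (fun x _ => hf1 x)
  refine hF2 ⟨_, h1.trans mkKK.symm, fun B hB => ?_⟩
  obtain ⟨w, rfl⟩ := hd2 B hB
  apply h2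
  obtain ⟨w', hw'⟩ := noMax hreg w
  filter_upwards [eventually_ge_atTop w'] with x hx _
  exact hf2 x ⟨w, lt_of_lt_of_le hw' hx⟩

theorem hasPI_small (hreg : κ.IsRegular) {F : Set (Set (KK κ))} (hF : SIP F)
    (hlt : #(↥F) < pNum κ) : HasPI F := by
  have h1κ : 1 < κ := lt_of_lt_of_le Cardinal.one_lt_aleph0 hreg.aleph0_le
  exact hasPI_of_lt_p h1κ (Equiv.refl (KK κ)) hF hlt

/-- the diagonal sets of a family of `κ⁺` sets -/
def RD (d : KK (Order.succ κ) → Set (KK κ)) (e : KK (Order.succ κ) → KK κ → KK (Order.succ κ))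
    (j : KK (Order.succ κ)) (x : KK κ) : Set (KK κ) := {y | ∀ n, n < x → y ∈ d (e j n)}

theorem rd_dec (d : KK (Order.succ κ) → Set (KK κ))
    (e : KK (Order.succ κ) → KK κ → KK (Order.succ κ)) (he1 : ∀ j n, e j n ≤ j)
    (he2 : ∀ j i, i ≤ j → ∃ n, e j n = i) (i j : KK (Order.succ κ)) (hij : i < j) :
    ∃ φ : KK κ → KK κ, ∀ x, (∀ z, z < x → φ z < x) → ∀ y, x ≤ y → y ∈ RD d e j x →
      y ∈ RD d e i x := by
  have : ∀ n, ∃ n', e j n' = e i n := fun n => he2 j _ ((he1 i n).trans hij.le)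
  choose φ hφ using this
  refine ⟨φ, fun x hx y _ hy n hn => ?_⟩
  have := hy (φ n) (hx n hn)
  rwa [hφ] at this

theorem rd_pi (hreg : κ.IsRegular) (d : KK (Order.succ κ) → Set (KK κ))
    (e : KK (Order.succ κ) → KK κ → KK (Order.succ κ)) (A : Set (KK κ))
    (hA : ∀ w, Almost A (d w)) (j : KK (Order.succ κ)) :
    ∃ φ : KK κ → KK κ, ∀ x, (∀ z, z < x → φ z < x) → ∀ y ∈ A, x ≤ y → y ∈ RD d e j x := by
  have : ∀ n, ∃ b, ∀ y, y ∈ A → b ≤ y → y ∈ d (e j n) := fun n => almost_bdd hreg (hA _)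
  choose φ hφ using this
  exact ⟨φ, fun x hx y hy hxy n hn => hφ n y hy ((hx n hn).le.trans hxy)⟩

/-- diagonal intersections of `κ` many decreasing sequences -/
def RA {I : Type u} (A : KK κ → I → Set (KK κ)) (i : I) (x : KK κ) : Set (KK κ) :=
  {y | ∀ ξ, ξ < x → y ∈ A ξ i}

theorem ra_dec (hreg : κ.IsRegular) {I : Type u} [LinearOrder I] (A : KK κ → I → Set (KK κ))
    (hA : ∀ ξ i j, i < j → Almost (A ξ j) (A ξ i)) (i j : I) (hij : i < j) :
    ∃ φ : KK κ → KK κ, ∀ x, (∀ z, z < x → φ z < x) → ∀ y, x ≤ y → y ∈ RA A j x →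
      y ∈ RA A i x := by
  have : ∀ ξ, ∃ b, ∀ y, y ∈ A ξ j → b ≤ y → y ∈ A ξ i := fun ξ => almost_bdd hreg (hA ξ i j hij)
  choose φ hφ using this
  refine ⟨φ, fun x hx y hxy hy ξ hξ => ?_⟩
  exact hφ ξ y (hy ξ hξ) ((hx ξ hξ).le.trans hxy)

theorem ra_pi (hreg : κ.IsRegular) {I : Type u} (B : KK κ → I → Set (KK κ)) (i : I)
    (A : Set (KK κ)) (hA : ∀ ξ, Almost A (B ξ i)) :
    ∃ φ : KK κ → KK κ, ∀ x, (∀ z, z < x → φ z < x) → ∀ y ∈ A, x ≤ y → y ∈ RA B i x := by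
  have : ∀ ξ, ∃ b, ∀ y, y ∈ A → b ≤ y → y ∈ B ξ i := fun ξ => almost_bdd hreg (hA ξ)
  choose φ hφ using this
  exact ⟨φ, fun x hx y hy hxy ξ hξ => hφ ξ y hy ((hx ξ hξ).le.trans hxy)⟩

/-- Garti: `κ⁺ < p(κ)` if `p(κ) < t(κ)` -/
theorem succ_lt_p (hreg : κ.IsRegular) (h0 : ℵ₀ < κ) (hpow : κ ^< κ = κ)
    (h : pNum κ < tNum κ) : Order.succ κ < pNum κ := by
  classical
  have hneK := neK hreg
  have hsreg : (Order.succ κ).IsRegular := Cardinal.isRegular_succ hreg.aleph0_le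
  have hneS := neK hsreg
  have hκ := kappa_lt_p hreg h
  by_contra hle
  have hle' : pNum κ ≤ Order.succ κ := not_lt.1 hle
  obtain ⟨F, hF1, hF2, hF3⟩ := exists_witness h
  obtain ⟨d, hd1, hd2⟩ := exists_enum (W := KK (Order.succ κ)) F
    ((hF3.le.trans hle').trans mkKK.ge)
  have hF' := sip_insert_univ hF1
  obtain ⟨e, he1, he2⟩ := exists_e hreg
  -- pseudointersections of the families of size `κ`
  have hPI : ∀ a : KK (Order.succ κ), ∃ A : Set (KK κ), #(↥A) = κ ∧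
      ∀ n, Almost A (d (e a n)) := by
    intro a
    obtain ⟨A, hA1, hA2⟩ := hasPI_small hreg (F := Set.range fun n => d (e a n))
      (sip_mono (by rintro _ ⟨n, rfl⟩; exact hd1 _) hF')
      (lt_of_le_of_lt mk_range_le (by rw [mkKK]; exact hκ))
    exact ⟨A, hA1.trans mkKK, fun n => hA2 _ ⟨n, rfl⟩⟩
  choose A hA1 hA2 using hPI
  obtain ⟨X, v, f, hX, hXf, -, hXB⟩ := core2G hreg h0 hpow hκ h.le (N := PEmpty.{u+1})
    (fun m => m.elim) (fun b => by
      rw [Cardinal.mk_eq_zero]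
      exact hreg.pos) (fun b => dp_finite h0 _)
    (ι := fun _ => PUnit.{u+1}) (by
      rw [Cardinal.mk_eq_zero]
      exact hreg.pos.trans hκ)
    (J := KK (Order.succ κ))
    (by rw [mkKK]; exact lt_of_le_of_lt (Order.succ_le_of_lt hκ) h)
    (fun Γ hΓ => by
      obtain ⟨a, ha⟩ := bdd hsreg (Order.lt_succ_iff.2 hΓ)
      exact ⟨a, fun b hb => (ha b hb).le⟩)
    (fun m => m.elim) (RD d e) (fun m => m.elim)
    (fun i j hij => rd_dec d e he1 he2 i j hij) A hA1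
    (fun a => by
      have : ∀ n, ∃ b, ∀ y, y ∈ A a → b ≤ y → y ∈ d (e a n) := fun n =>
        almost_bdd hreg (hA2 a n)
      choose φ hφ using this
      exact ⟨φ, fun x hx y hy hxy n hn => hφ n y hy ((hx n hn).le.trans hxy)⟩)
    (fun _ m => m.elim)
  obtain ⟨h1, h2⟩ := pi_of_selector hreg hX (fun x hx => (hXf x hx).1.trans (hXf x hx).2)
  refine hF2 ⟨_, h1.trans mkKK.symm, fun B hB => ?_⟩
  obtain ⟨w, rfl⟩ := hd2 B hB
  apply h2
  obtain ⟨n, hn⟩ := he2 w w le_rfl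
  obtain ⟨n', hn'⟩ := noMax hreg n
  filter_upwards [eventually_ge_atTop n', hXB w] with x hx hx2 hxX
  have := hx2 hxX n (lt_of_lt_of_le hn' (hx.trans (hXf x hxX).1))
  rwa [hn] at this

/-- the theorem for sequences -/
theorem seqG (hreg : κ.IsRegular) (h0 : ℵ₀ < κ) (hpow : κ ^< κ = κ)
    (hs : Order.succ κ < pNum κ) (hpt : pNum κ ≤ tNum κ)
    {M : Type u} (rank : M → KK κ) (hM : ∀ b, #{m : M // rank m < b} < κ)
    (hMs : Finite M ∨ κ.IsStrongLimit)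
    {ι : M → Type u} [∀ m, LinearOrder (ι m)] [∀ m, WellFoundedLT (ι m)]
    (hι : #(Σ m, ι m) < pNum κ)
    {J : Type u} [LinearOrder J] [WellFoundedLT J] (hJ : #J < tNum κ)
    (hJb : ∀ Γ : Set J, #(↥Γ) ≤ κ → ∃ a, ∀ b ∈ Γ, b ≤ a)
    (F : Set (Set (KK κ))) (hF : SIP F)
    (D : Set (Set (KK κ))) (hD : #(↥D) ≤ Order.succ κ) (hDF : D ⊆ F)
    (A : ∀ m, KK κ → ι m → Set (KK κ)) (hAF : ∀ m ξ i, A m ξ i ∈ insert Set.univ F)
    (hA : ∀ m ξ i j, i < j → Almost (A m ξ j) (A m ξ i))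
    (B : KK κ → J → Set (KK κ)) (hBF : ∀ ξ a, B ξ a ∈ insert Set.univ F)
    (hB : ∀ ξ a b, a < b → Almost (B ξ b) (B ξ a)) :
    ∃ P : Set (KK κ), #(↥P) = κ ∧ (∀ d ∈ D, Almost P d) ∧ (∀ m ξ i, Almost P (A m ξ i)) ∧
      (∀ ξ a, Almost P (B ξ a)) := by
  classical
  have hneK := neK hreg
  have hsreg : (Order.succ κ).IsRegular := Cardinal.isRegular_succ hreg.aleph0_le
  have hneS := neK hsreg
  have hκ : κ < pNum κ := (Order.lt_succ κ).trans hs
  have hpinf : ℵ₀ ≤ pNum κ := hreg.aleph0_le.trans hκ.le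
  obtain ⟨d, hd1, hd2⟩ := exists_enum (W := KK (Order.succ κ)) D (hD.trans mkKK.ge)
  have hd1' : ∀ w, d w ∈ insert Set.univ F := fun w => Set.insert_subset_insert hDF (hd1 w)
  have hF' := sip_insert_univ hF
  obtain ⟨e, he1, he2⟩ := exists_e hreg
  -- pseudointersections
  have hPI : ∀ a : J, ∃ Q : Set (KK κ), #(↥Q) = κ ∧ (∀ w, Almost Q (d w)) ∧
      (∀ m ξ i, Almost Q (A m ξ i)) ∧ ∀ ξ, Almost Q (B ξ a) := by
    intro a
    let G : Set (Set (KK κ)) := Set.range d ∪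
      (Set.range (fun q : KK κ × (Σ m, ι m) => A q.2.1 q.1 q.2.2) ∪ Set.range fun ξ => B ξ a)
    have hG : G ⊆ insert Set.univ F := by
      rintro S (⟨w, rfl⟩ | ⟨q, rfl⟩ | ⟨ξ, rfl⟩)
      · exact hd1' w
      · exact hAF _ _ _
      · exact hBF _ _
    have hGc : #(↥G) < pNum κ := by
      refine lt_of_le_of_lt (mk_union_le _ _) (Cardinal.add_lt_of_lt hpinf ?_
        (lt_of_le_of_lt (mk_union_le _ _) (Cardinal.add_lt_of_lt hpinf ?_ ?_)))
      · exact lt_of_le_of_lt mk_range_le (by rw [mkKK]; exact hs)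
      · refine lt_of_le_of_lt mk_range_le ?_
        rw [mk_prod, Cardinal.lift_id, Cardinal.lift_id, mkKK]
        exact Cardinal.mul_lt_of_lt hpinf hκ hι
      · exact lt_of_le_of_lt mk_range_le (by rw [mkKK]; exact hκ)
    obtain ⟨Q, hQ1, hQ2⟩ := hasPI_small hreg (sip_mono hG hF') hGc
    refine ⟨Q, hQ1.trans mkKK, fun w => hQ2 _ (Or.inl ⟨w, rfl⟩), fun m ξ i => ?_, fun ξ => ?_⟩
    · exact hQ2 _ (Or.inr (Or.inl ⟨(ξ, ⟨m, i⟩), rfl⟩))
    · exact hQ2 _ (Or.inr (Or.inr ⟨ξ, rfl⟩))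
  choose Q hQc hQd hQA hQB using hPI
  let ι' : Option M → Type u := fun o => match o with
    | none => KK (Order.succ κ)
    | some m => ι m
  letI : ∀ o, LinearOrder (ι' o) := fun o => match o with
    | none => inferInstanceAs (LinearOrder (KK (Order.succ κ)))
    | some m => inferInstanceAs (LinearOrder (ι m))
  haveI : ∀ o, WellFoundedLT (ι' o) := fun o => match o with
    | none => inferInstanceAs (WellFoundedLT (KK (Order.succ κ)))
    | some m => inferInstanceAs (WellFoundedLT (ι m))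
  let R : ∀ o, ι' o → KK κ → Set (KK κ) := fun o => match o with
    | none => RD d e
    | some m => RA (A m)
  let rank' : Option M → KK κ := fun o => match o with
    | none => hneK.some
    | some m => rank m
  have hι' : #(Σ o, ι' o) < pNum κ := by
    have h1 : #(Σ o, ι' o) ≤ #(KK (Order.succ κ)) + #(Σ m, ι m) := by
      rw [Cardinal.add_def]
      refine Cardinal.mk_le_of_injective (f := fun q : (Σ o, ι' o) =>
        (match q with
          | ⟨none, i⟩ => Sum.inl i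
          | ⟨some m, i⟩ => Sum.inr ⟨m, i⟩ : KK (Order.succ κ) ⊕ (Σ m, ι m))) ?_
      rintro ⟨_ | m, i⟩ ⟨_ | m', i'⟩ h
      · simp only [Sum.inl.injEq] at h
        rw [h]
      · simp at h
      · simp at h
      · simp only [Sum.inr.injEq, Sigma.mk.injEq] at h
        obtain ⟨rfl, h⟩ := h
        rw [eq_of_heq h]
    refine lt_of_le_of_lt h1 (Cardinal.add_lt_of_lt hpinf ?_ hι)
    rw [mkKK]
    exact hs
  have hN : ∀ b, #{o : Option M // rank' o < b} < κ := by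
    intro b
    have h1 : #{o : Option M // rank' o < b} ≤ #(Option {m : M // rank m < b}) := by
      refine Cardinal.mk_le_of_injective (f := fun o : {o : Option M // rank' o < b} =>
        (match o with
          | ⟨none, _⟩ => none
          | ⟨some m, h⟩ => some ⟨m, h⟩ : Option {m : M // rank m < b})) ?_
      rintro ⟨_ | m, h⟩ ⟨_ | m', h'⟩ he
      · rfl
      · simp at he
      · simp at he
      · simp only [Option.some.injEq, Subtype.mk.injEq] at he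
        subst he
        rfl
    refine lt_of_le_of_lt h1 ?_
    rw [Cardinal.mk_option]
    exact Cardinal.add_lt_of_lt hreg.aleph0_le (hM b)
      (lt_of_lt_of_le Cardinal.one_lt_aleph0 hreg.aleph0_le)
  have hDP : ∀ b, DP κ {o : Option M // rank' o < b} := by
    intro b
    rcases hMs with hfin | hsl
    · exact dp_finite h0 _
    · exact dp_strong hreg hsl h0 _ (hN b)
  obtain ⟨X, v, f, hX, hXf, hXR, hXB⟩ := core2G hreg h0 hpow hκ hpt (N := Option M) rank' hN hDP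
    (ι := ι') hι' hJ hJb R (RA B)
    (fun o => match o with
      | none => fun i j hij => rd_dec d e he1 he2 i j hij
      | some m => fun i j hij => ra_dec hreg (A m) (hA m) i j hij)
    (fun i j hij => ra_dec hreg B hB i j hij) Q hQc
    (fun a => ra_pi hreg B a (Q a) (hQB a))
    (fun a o => match o with
      | none => fun j => rd_pi hreg d e (Q a) (hQd a) j
      | some m => fun i => ra_pi hreg (A m) i (Q a) (fun ξ => hQA a m ξ i))
  obtain ⟨h1, h2⟩ := pi_of_selector hreg hX (fun x hx => (hXf x hx).1.trans (hXf x hx).2)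
  refine ⟨_, h1, fun a ha => ?_, fun m ξ i => ?_, fun ξ a => ?_⟩
  · obtain ⟨w, rfl⟩ := hd2 a ha
    apply h2
    obtain ⟨n, hn⟩ := he2 w w le_rfl
    obtain ⟨n', hn'⟩ := noMax hreg n
    filter_upwards [eventually_ge_atTop n', hXR none w] with x hx hx2 hxX
    have h3 : f x ∈ RD d e w (v x) := hx2 hxX
    have := h3 n (lt_of_lt_of_le hn' (hx.trans (hXf x hxX).1))
    rwa [hn] at this
  · apply h2
    obtain ⟨ξ', hξ'⟩ := noMax hreg ξ
    filter_upwards [eventually_ge_atTop ξ', hXR (some m) i] with x hx hx2 hxX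
    have h3 : f x ∈ RA (A m) i (v x) := hx2 hxX
    exact h3 ξ (lt_of_lt_of_le hξ' (hx.trans (hXf x hxX).1))
  · apply h2
    obtain ⟨ξ', hξ'⟩ := noMax hreg ξ
    filter_upwards [eventually_ge_atTop ξ', hXB a] with x hx hx2 hxX
    exact hx2 hxX ξ (lt_of_lt_of_le hξ' (hx.trans (hXf x hxX).1))

end Pool.Agent.Lib.MP_eff308_lc.T
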