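import Pool.Agent.Lib.MP_eff308_lc.T.Base

open Cardinal Set Filter

universe u

namespace Pool.Agent.Lib.MP_eff308_lc.T

variable {κ : Cardinal.{u}}

section Transport

variable {S : Type u} (e : S ≃ KK κ)

/-- transport of a family along a bijection -/
def tr (F : Set (Set S)) : Set (Set (KK κ)) := (fun B => e '' B) '' F

theorem mkS (e : S ≃ KK κ) : #S = κ := (Cardinal.mk_congr e).trans mkKK

theorem mk_img (B : Set S) : #(↥(e '' B)) = #(↥B) := Cardinal.mk_image_eq e.injective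

theorem mk_tr_le (F : Set (Set S)) : #(↥(tr e F)) ≤ #(↥F) := Cardinal.mk_image_le

theorem almost_img {A B : Set S} : Almost (e '' A) (e '' B) ↔ Almost A B := by
  unfold Almost
  rw [← Set.image_diff e.injective, mk_img, mkKK, mkS e]

theorem sip_tr {F : Set (Set S)} (hF : SIP F) : SIP (tr e F) := by
  intro G hG hlt
  let G' : Set (Set S) := {B | B ∈ F ∧ e '' B ∈ G}
  have hG' : #(↥G') ≤ #(↥G) := by
    refine Cardinal.mk_le_of_injective (f := fun B : G' => (⟨e '' B.1, B.2.2⟩ : G)) ?_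
    intro B C h
    have : e '' B.1 = e '' C.1 := congrArg Subtype.val h
    exact Subtype.ext (Set.image_injective.2 e.injective this)
  have h1 := hF G' (fun B hB => hB.1) (by
    rw [mkS e]; rw [mkKK] at hlt; exact lt_of_le_of_lt hG' hlt)
  have h2 : ⋂₀ G = e '' (⋂₀ G') := by
    ext x
    simp only [Set.mem_sInter, Set.mem_image]
    constructor
    · intro h
      refine ⟨e.symm x, fun B hB => ?_, e.apply_symm_apply x⟩
      obtain ⟨y, hy, hyx⟩ := h _ hB.2
      rw [← hyx, e.symm_apply_apply]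
      exact hy
    · rintro ⟨y, hy, rfl⟩ C hC
      obtain ⟨B, hB, rfl⟩ := hG hC
      exact ⟨y, hy B ⟨hB, hC⟩, rfl⟩
  rw [h2, mk_img, h1, mkS e, mkKK]

theorem hasPI_tr {F : Set (Set S)} (h : HasPI (tr e F)) : HasPI F := by
  obtain ⟨A, hA, hAF⟩ := h
  refine ⟨e ⁻¹' A, ?_, fun B hB => ?_⟩
  · have : e '' (e ⁻¹' A) = A := Set.image_preimage_eq A e.surjective
    rw [← mk_img e, this, hA, mkKK, mkS e]
  · have h1 := hAF (e '' B) ⟨B, hB, rfl⟩
    have : e '' (e ⁻¹' A) = A := Set.image_preimage_eq A e.surjective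
    rw [← this, almost_img] at h1
    exact h1

theorem starWO_tr {T : Set (Set S)} (h : StarWO T) : StarWO (tr e T) := by
  intro G hG hne
  let G' : Set (Set S) := {B | B ∈ T ∧ e '' B ∈ G}
  obtain ⟨C, hC⟩ := hne
  obtain ⟨B, hB, rfl⟩ := hG hC
  obtain ⟨A, hA, hAm⟩ := h G' (fun B hB => hB.1) ⟨B, hB, hC⟩
  refine ⟨e '' A, hA.2, fun D hD => ?_⟩
  obtain ⟨D', hD', rfl⟩ := hG hD
  exact (almost_img e).2 (hAm D' ⟨hD', hD⟩)

theorem card_mem (h1 : 1 < #S) {F : Set (Set S)} (hF : SIP F) {B : Set S} (hB : B ∈ F) :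
    #(↥B) = #S := by
  have := hF {B} (by simpa using hB) (by rw [mk_singleton]; exact h1)
  simpa using this

theorem hasPI_of_lt_p (h1 : 1 < κ) (e : S ≃ KK κ) {F : Set (Set S)} (hF : SIP F)
    (hlt : #(↥F) < pNum κ) : HasPI F := by
  by_contra hno
  have hmem : #(↥(tr e F)) ∈ {c | ∃ F : Set (Set (KK κ)), (∀ B ∈ F, #(↥B) = κ) ∧ SIP F ∧
      ¬ HasPI F ∧ #(↥F) = c} := by
    refine ⟨tr e F, fun B hB => ?_, sip_tr e hF, fun h => hno (hasPI_tr e h), rfl⟩
    rw [card_mem (by rwa [mkKK]) (sip_tr e hF) hB, mkKK]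
  have := csInf_le' hmem
  exact absurd hlt (not_lt.2 (this.trans (mk_tr_le e F)))

theorem hasPI_of_lt_t (h1 : 1 < κ) (e : S ≃ KK κ) {T : Set (Set S)} (hF : SIP T)
    (hT : StarWO T) (hlt : #(↥T) < tNum κ) : HasPI T := by
  by_contra hno
  have hmem : #(↥(tr e T)) ∈ {c | ∃ T : Set (Set (KK κ)), (∀ B ∈ T, #(↥B) = κ) ∧ SIP T ∧
      StarWO T ∧ ¬ HasPI T ∧ #(↥T) = c} := by
    refine ⟨tr e T, fun B hB => ?_, sip_tr e hF, starWO_tr e hT,
      fun h => hno (hasPI_tr e h), rfl⟩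
    rw [card_mem (by rwa [mkKK]) (sip_tr e hF) hB, mkKK]
  have := csInf_le' hmem
  exact absurd hlt (not_lt.2 (this.trans (mk_tr_le e T)))

end Transport

variable {Z : Type u}

theorem proj_small {A : Set (KK κ × Z)} (hA : #(↥A) < κ) :
    #(↥{x : KK κ | ∃ z, (x, z) ∈ A}) < κ := by
  have : {x : KK κ | ∃ z, (x, z) ∈ A} ⊆ Prod.fst '' A := by
    rintro x ⟨z, hz⟩
    exact ⟨(x, z), hz, rfl⟩
  exact lt_of_le_of_lt ((mk_le_mk_of_subset this).trans mk_image_le) hA

theorem card_of_proj (hreg : κ.IsRegular) (hZ : #(KK κ × Z) = κ) {A : Set (KK κ × Z)}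
    (h : ∃ᶠ x in atTop, ∃ z, (x, z) ∈ A) : #(↥A) = #(KK κ × Z) := by
  refine le_antisymm (mk_set_le A) ?_
  rw [hZ]
  by_contra hlt
  have h1 := proj_small (not_le.1 hlt)
  have h2 := card_of_freq hreg (X := {x : KK κ | ∃ z, (x, z) ∈ A}) h
  exact absurd h2 h1.ne

/-- use of the pseudointersection number -/
theorem use_p (hreg : κ.IsRegular) (hZ : #(KK κ × Z) = κ) (hp : κ < pNum κ) {I : Type u}
    (hI : #I < pNum κ) (P : I → KK κ → Z → Prop)
    (h : ∀ Γ : Set I, #(↥Γ) < κ → ∃ᶠ x in atTop, ∃ z, ∀ i ∈ Γ, P i x z) :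
    ∃ (X : Set (KK κ)) (f : KK κ → Z), (∃ᶠ x in atTop, x ∈ X) ∧
      ∀ i, ∀ᶠ x in atTop, x ∈ X → P i x (f x) := by
  classical
  have hne := neK hreg
  obtain ⟨e⟩ : Nonempty ((KK κ × Z) ≃ KK κ) := by
    rw [← Cardinal.eq, hZ, mkKK]
  let A1 : I → Set (KK κ × Z) := fun i => {q | P i q.1 q.2}
  let A2 : KK κ → Set (KK κ × Z) := fun b => {q | b ≤ q.1}
  let F : Set (Set (KK κ × Z)) := Set.range A1 ∪ Set.range A2
  have hF : SIP F := by
    intro G hG hlt
    rw [hZ] at hlt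
    apply card_of_proj hreg hZ
    let Γ : Set I := {i | A1 i ∈ G ∧ ∀ j, A1 j = A1 i → True}
    -- choose representatives
    have hrep1 : ∀ B : ↥G, ∃ (i : Option I) (b : Option (KK κ)),
        (∀ j ∈ i, A1 j = B.1) ∧ (∀ c ∈ b, A2 c = B.1) ∧ (i.isSome ∨ b.isSome) := by
      intro B
      rcases hG B.2 with ⟨i, hi⟩ | ⟨b, hb⟩
      · exact ⟨some i, none, by simp [hi], by simp, Or.inl rfl⟩
      · exact ⟨none, some b, by simp, by simp [hb], Or.inr rfl⟩
    choose ri rb h1 h2 h3 using hrep1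
    let Γ1 : Set I := {i | ∃ B : ↥G, i ∈ ri B}
    let Γ2 : Set (KK κ) := {b | ∃ B : ↥G, b ∈ rb B}
    have hΓ1 : #(↥Γ1) < κ := by
      have : #(↥Γ1) ≤ #(↥G) := by
        have hch : ∀ i : Γ1, ∃ B : ↥G, i.1 ∈ ri B := fun i => i.2
        choose g hg using hch
        refine Cardinal.mk_le_of_injective (f := g) ?_
        intro i j hij
        have a1 := hg i
        have a2 := hg j
        rw [hij] at a1
        exact Subtype.ext (Option.mem_unique a1 a2)
      exact lt_of_le_of_lt this hlt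
    have hΓ2 : #(↥Γ2) < κ := by
      have : #(↥Γ2) ≤ #(↥G) := by
        have hch : ∀ i : Γ2, ∃ B : ↥G, i.1 ∈ rb B := fun i => i.2
        choose g hg using hch
        refine Cardinal.mk_le_of_injective (f := g) ?_
        intro i j hij
        have a1 := hg i
        have a2 := hg j
        rw [hij] at a1
        exact Subtype.ext (Option.mem_unique a1 a2)
      exact lt_of_le_of_lt this hlt
    obtain ⟨b0, hb0⟩ := bdd hreg hΓ2
    refine ((h Γ1 hΓ1).and_eventually (eventually_ge_atTop b0)).mono ?_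
    rintro x ⟨⟨z, hz⟩, hx⟩
    refine ⟨z, fun B hB => ?_⟩
    rcases h3 ⟨B, hB⟩ with hs | hs
    · obtain ⟨i, hi⟩ := Option.isSome_iff_exists.1 hs
      have hi' : i ∈ ri ⟨B, hB⟩ := hi
      have := h1 ⟨B, hB⟩ i hi'
      rw [← show A1 i = B from this]
      exact hz i ⟨_, hi'⟩
    · obtain ⟨c, hc⟩ := Option.isSome_iff_exists.1 hs
      have hc' : c ∈ rb ⟨B, hB⟩ := hc
      have := h2 ⟨B, hB⟩ c hc'
      rw [← show A2 c = B from this]
      exact (hb0 c ⟨_, hc'⟩).le.trans hx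
  have hlt : #(↥F) < pNum κ := by
    have h1 : #(↥F) ≤ #I + κ := by
      refine (mk_union_le _ _).trans (add_le_add mk_range_le ?_)
      exact mk_range_le.trans mkKK.le
    exact lt_of_le_of_lt h1 (Cardinal.add_lt_of_lt (hreg.aleph0_le.trans hp.le) hI hp)
  have h1κ : 1 < κ := lt_of_lt_of_le Cardinal.one_lt_aleph0 hreg.aleph0_le
  obtain ⟨A, hA, hAF⟩ := hasPI_of_lt_p h1κ e hF hlt
  rw [hZ] at hA
  let X : Set (KK κ) := {x | ∃ z, (x, z) ∈ A}
  have hZne : Nonempty Z := by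
    have : (A : Set (KK κ × Z)).Nonempty := by
      rw [Set.nonempty_iff_ne_empty]
      rintro rfl
      rw [mk_emptyCollection] at hA
      exact hreg.ne_zero hA.symm
    exact ⟨this.some.2⟩
  let f : KK κ → Z := fun x => if hx : ∃ z, (x, z) ∈ A then hx.choose else Classical.arbitrary Z
  have hf : ∀ x ∈ X, (x, f x) ∈ A := by
    intro x hx
    have : f x = Exists.choose hx := dif_pos hx
    rw [this]
    exact Exists.choose_spec hx
  refine ⟨X, f, ?_, fun i => ?_⟩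
  · rw [Filter.frequently_atTop]
    intro b
    by_contra hcon
    push Not at hcon
    have hsmall := hAF (A2 b) (Or.inr ⟨b, rfl⟩)
    have heq : A \ A2 b = A := by
      ext q
      constructor
      · exact fun hq => hq.1
      · intro hq
        exact ⟨hq, fun hb => hcon q.1 hb ⟨q.2, hq⟩⟩
    unfold Almost at hsmall
    rw [heq, hA, hZ] at hsmall
    exact lt_irrefl _ hsmall
  · have hsmall := hAF (A1 i) (Or.inl ⟨i, rfl⟩)
    unfold Almost at hsmall
    rw [hZ] at hsmall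
    have := ev_of_small hreg (proj_small hsmall)
    filter_upwards [this] with x hx hxX
    by_contra hP
    exact hx ⟨f x, hf x hxX, hP⟩

/-- use of the tower number -/
theorem use_t (hreg : κ.IsRegular) (hZ : #(KK κ × Z) = κ) {J : Type u} [LinearOrder J]
    [WellFoundedLT J] [Nonempty J] (hJ : #J < tNum κ) (V : KK κ → Set Z)
    (hV : ∀ x, #(↥(V x)) < κ)
    (P : J → KK κ → Z → Prop) (hPV : ∀ j x z, P j x z → z ∈ V x)
    (hdec : ∀ i j, i < j → ∀ᶠ x in atTop, ∀ z, P j x z → P i x z)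
    (h : ∀ Γ : Set J, #(↥Γ) < κ → ∃ᶠ x in atTop, ∃ z, ∀ i ∈ Γ, P i x z) :
    ∃ (X : Set (KK κ)) (f : KK κ → Z), (∃ᶠ x in atTop, x ∈ X) ∧ (∀ x ∈ X, f x ∈ V x) ∧
      ∀ i, ∀ᶠ x in atTop, x ∈ X → P i x (f x) := by
  classical
  have hne := neK hreg
  obtain ⟨e⟩ : Nonempty ((KK κ × Z) ≃ KK κ) := by
    rw [← Cardinal.eq, hZ, mkKK]
  let A1 : J → Set (KK κ × Z) := fun i => {q | P i q.1 q.2}
  let T : Set (Set (KK κ × Z)) := Set.range A1
  have hT : SIP T := by
    intro G hG hlt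
    rw [hZ] at hlt
    apply card_of_proj hreg hZ
    have hrep : ∀ B : ↥G, ∃ j, A1 j = B.1 := fun B => hG B.2
    choose g hg using hrep
    have hΓ : #(↥(Set.range g)) < κ := lt_of_le_of_lt mk_range_le hlt
    refine (h _ hΓ).mono ?_
    rintro x ⟨z, hz⟩
    refine ⟨z, fun B hB => ?_⟩
    have := hg ⟨B, hB⟩
    rw [← show A1 (g ⟨B, hB⟩) = B from this]
    exact hz _ ⟨_, rfl⟩
  have hsm : ∀ (i j : J), i ≤ j → Almost (A1 j) (A1 i) := by
    intro i j hij
    unfold Almost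
    rw [hZ]
    rcases hij.eq_or_lt with rfl | hlt
    · rw [Set.diff_self, mk_emptyCollection]
      exact hreg.pos
    · obtain ⟨b, hb⟩ := Filter.eventually_atTop.1 (hdec i j hlt)
      have hsub : A1 j \ A1 i ⊆ ⋃ x : Set.Iio b, (fun z => (x.1, z)) '' (V x.1) := by
        rintro ⟨x, z⟩ ⟨hj, hi⟩
        have hxb : x < b := by
          by_contra hcon
          exact hi (hb x (not_lt.1 hcon) z hj)
        exact Set.mem_iUnion.2 ⟨⟨x, hxb⟩, z, hPV _ _ _ hj, rfl⟩
      refine lt_of_le_of_lt (mk_le_mk_of_subset hsub) ?_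
      refine (card_iUnion_lt_iff_forall_of_isRegular hreg ?_).2 fun x => ?_
      · exact small_of_bdd (b := b) fun s hs => hs
      · exact lt_of_le_of_lt mk_image_le (hV _)
  have hWO : StarWO T := by
    intro G hG hGne
    let W : Set J := {j | A1 j ∈ G}
    have hW : W.Nonempty := by
      obtain ⟨B, hB⟩ := hGne
      obtain ⟨j, rfl⟩ := hG hB
      exact ⟨j, hB⟩
    let j0 := wellFounded_lt.min W hW
    refine ⟨A1 j0, wellFounded_lt.min_mem W hW, fun B hB => ?_⟩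
    obtain ⟨j, rfl⟩ := hG hB
    exact hsm _ _ (not_lt.1 (wellFounded_lt.not_lt_min W (x := j) hB))
  have h1κ : 1 < κ := lt_of_lt_of_le Cardinal.one_lt_aleph0 hreg.aleph0_le
  obtain ⟨A, hA, hAF⟩ := hasPI_of_lt_t h1κ e hT hWO (lt_of_le_of_lt mk_range_le hJ)
  rw [hZ] at hA
  obtain ⟨j0⟩ := (inferInstance : Nonempty J)
  let A' : Set (KK κ × Z) := A ∩ A1 j0
  have hA' : #(↥A') = κ := by
    have h1 := hAF (A1 j0) ⟨j0, rfl⟩
    unfold Almost at h1
    rw [hZ] at h1
    refine le_antisymm ((mk_le_mk_of_subset Set.inter_subset_left).trans hA.le) ?_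
    by_contra hlt
    have h2 : #(↥A) ≤ #(↥A') + #(↥(A \ A1 j0)) := by
      have : A = A' ∪ (A \ A1 j0) := (Set.inter_union_diff A (A1 j0)).symm
      conv_lhs => rw [this]
      exact mk_union_le _ _
    rw [hA] at h2
    exact absurd (Cardinal.add_lt_of_lt hreg.aleph0_le (not_le.1 hlt) h1) (not_lt.2 h2)
  let X : Set (KK κ) := {x | ∃ z, (x, z) ∈ A'}
  have hZne : Nonempty Z := by
    have : (A : Set (KK κ × Z)).Nonempty := by
      rw [Set.nonempty_iff_ne_empty]
      rintro rfl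
      rw [mk_emptyCollection] at hA
      exact hreg.ne_zero hA.symm
    exact ⟨this.some.2⟩
  let f : KK κ → Z := fun x => if hx : ∃ z, (x, z) ∈ A' then hx.choose else Classical.arbitrary Z
  have hf : ∀ x ∈ X, (x, f x) ∈ A' := by
    intro x hx
    have : f x = Exists.choose hx := dif_pos hx
    rw [this]
    exact Exists.choose_spec hx
  refine ⟨X, f, ?_, fun x hx => hPV j0 _ _ (hf x hx).2, fun i => ?_⟩
  · apply freq_of_card hreg
    refine le_antisymm ((mk_set_le X).trans mkKK.le) ?_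
    by_contra hlt
    have hsub : A' ⊆ ⋃ x : X, (fun z => (x.1, z)) '' (V x.1) := by
      rintro ⟨x, z⟩ hq
      exact Set.mem_iUnion.2 ⟨⟨x, z, hq⟩, z, hPV _ _ _ hq.2, rfl⟩
    have : #(↥A') < κ := by
      refine lt_of_le_of_lt (mk_le_mk_of_subset hsub) ?_
      refine (card_iUnion_lt_iff_forall_of_isRegular hreg (not_le.1 hlt)).2 fun x => ?_
      exact lt_of_le_of_lt mk_image_le (hV _)
    exact absurd hA' this.ne
  · have hsmall := hAF (A1 i) ⟨i, rfl⟩
    unfold Almost at hsmall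
    rw [hZ] at hsmall
    have := ev_of_small hreg (proj_small hsmall)
    filter_upwards [this] with x hx hxX
    by_contra hP
    exact hx ⟨f x, (hf x hxX).1, hP⟩

end Pool.Agent.Lib.MP_eff308_lc.T
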